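import Mathlib

/-!
# Frequencies
-/

set_option autoImplicit false

open Filter Set
open scoped Topology

namespace Pool.Agent.N315.PL

open Classical in
/-- the number of the elements of `E` below `X` -/
noncomputable def cn (E : Set ℕ) (X : ℕ) : ℕ := ((Finset.range X).filter (fun x => x ∈ E)).card

/-- the upper frequency of `E` is at most `q` -/
def UB (E : Set ℕ) (q : ℝ) : Prop := ∀ ε : ℝ, 0 < ε → ∀ᶠ X : ℕ in atTop, (cn E X : ℝ) ≤ (q + ε) * X

lemma cn_le (E : Set ℕ) (X : ℕ) : cn E X ≤ X := by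
  classical
  exact (Finset.card_filter_le _ _).trans (by rw [Finset.card_range])

lemma cn_mono {E F : Set ℕ} (h : E ⊆ F) (X : ℕ) : cn E X ≤ cn F X := by
  classical
  refine Finset.card_le_card fun x hx => ?_
  rw [Finset.mem_filter] at hx ⊢
  exact ⟨hx.1, h hx.2⟩

lemma cn_union (E F : Set ℕ) (X : ℕ) : cn (E ∪ F) X ≤ cn E X + cn F X := by
  classical
  refine le_trans (Finset.card_le_card (t := (Finset.range X).filter (fun x => x ∈ E) ∪ (Finset.range X).filter (fun x => x ∈ F)) ?_) ?_
  · intro x hx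
    simp only [Finset.mem_filter, Finset.mem_union, Set.mem_union] at hx ⊢
    tauto
  · refine (Finset.card_union_le _ _).trans (le_of_eq ?_)
    unfold cn
    congr!

lemma UB.mono {E F : Set ℕ} {q : ℝ} (h : UB F q) (hEF : E ⊆ F) : UB E q := fun ε hε => by
  filter_upwards [h ε hε] with X hX
  exact le_trans (by exact_mod_cast cn_mono hEF X) hX

lemma UB.union {E F : Set ℕ} {q p : ℝ} (h : UB E q) (h' : UB F p) : UB (E ∪ F) (q + p) := fun ε hε => by
  filter_upwards [h (ε / 2) (by positivity), h' (ε / 2) (by positivity)] with X h1 h2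
  have h3 : (cn (E ∪ F) X : ℝ) ≤ cn E X + cn F X := by exact_mod_cast cn_union E F X
  linarith

lemma UB.of_dz {E F Z : Set ℕ} {q : ℝ} (h : UB F q) (hZ : UB Z 0) (hE : E ⊆ F ∪ Z) : UB E q := by
  have := (h.union hZ).mono hE
  rwa [add_zero] at this

lemma UB.le {E : Set ℕ} {q p : ℝ} (h : UB E q) (hqp : q ≤ p) : UB E p := fun ε hε => by
  filter_upwards [h ε hε] with X hX
  have : (q + ε) * X ≤ (p + ε) * X := mul_le_mul_of_nonneg_right (by linarith) (Nat.cast_nonneg X)
  linarith

lemma UB_lim {E : Set ℕ} {q : ℝ} {p : ℕ → ℝ} (h : ∀ j, UB E (p j)) (hp : Tendsto p atTop (𝓝 q)) : UB E q := fun ε hε => by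
  obtain ⟨j, hj⟩ := (hp.eventually_lt_const (show q < q + ε / 2 by linarith)).exists
  filter_upwards [h j (ε / 2) (by positivity)] with X hX
  have : (p j + ε / 2) * X ≤ (q + ε) * X := mul_le_mul_of_nonneg_right (by linarith) (Nat.cast_nonneg X)
  linarith

lemma UB_of_eventually {E : Set ℕ} (h : ∀ᶠ x in atTop, x ∉ E) : UB E 0 := fun ε hε => by
  classical
  obtain ⟨x₀, hx₀⟩ := eventually_atTop.1 h
  have h1 : Tendsto (fun X : ℕ => (0 + ε) * (X : ℝ)) atTop atTop := by
    rw [zero_add]
    exact tendsto_natCast_atTop_atTop.const_mul_atTop hε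
  filter_upwards [h1.eventually_ge_atTop (x₀ : ℝ)] with X hX
  refine le_trans ?_ hX
  have : cn E X ≤ (Finset.range x₀).card := Finset.card_le_card fun x hx => by
    rw [Finset.mem_filter] at hx
    rw [Finset.mem_range]
    by_contra hcon
    exact hx₀ x (not_lt.1 hcon) hx.2
  rw [Finset.card_range] at this
  exact_mod_cast this

open Classical in
lemma UB_of_summable {E : Set ℕ} (h : Summable (fun n : ℕ => if n ∈ E then 1 / (n : ℝ) else 0)) : UB E 0 := fun ε hε => by
  set g : ℕ → ℝ := fun n => if n ∈ E then 1 / (n : ℝ) else 0 with hg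
  have hg0 : ∀ n, 0 ≤ g n := fun n => by
    simp only [hg]
    split_ifs
    · positivity
    · exact le_rfl
  obtain ⟨Y, hY⟩ := (h.hasSum.tendsto_sum_nat.eventually_const_lt (show (∑' n, g n) - ε / 2 < ∑' n, g n by linarith)).exists
  have h1 : Tendsto (fun X : ℕ => (ε / 2) * (X : ℝ)) atTop atTop := tendsto_natCast_atTop_atTop.const_mul_atTop (by positivity)
  filter_upwards [h1.eventually_ge_atTop ((Y : ℝ) + 1), eventually_ge_atTop (Y + 1)] with X hX hXY
  have hX0 : (0 : ℝ) < X := by exact_mod_cast (by omega : 0 < X)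
  have h2 : ∀ n ∈ Finset.range X, (if n ∈ E then (1 : ℝ) else 0) ≤ (if n < Y + 1 then 1 else 0) + X * (if Y ≤ n then g n else 0) := by
    intro n hn
    have hn := Finset.mem_range.1 hn
    by_cases hE : n ∈ E
    · rw [if_pos hE]
      by_cases hnY : n < Y + 1
      · rw [if_pos hnY]
        have : 0 ≤ (X : ℝ) * (if Y ≤ n then g n else 0) := by
          split_ifs
          · exact mul_nonneg hX0.le (hg0 n)
          · simp
        linarith
      · rw [if_neg hnY, if_pos (by omega), zero_add]
        have hgn : g n = 1 / (n : ℝ) := by simp only [hg, if_pos hE]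
        have hn0 : (0 : ℝ) < n := by exact_mod_cast (by omega : 0 < n)
        rw [hgn, mul_one_div, le_div_iff₀ hn0, one_mul]
        exact_mod_cast hn.le
    · rw [if_neg hE]
      have : 0 ≤ (X : ℝ) * (if Y ≤ n then g n else 0) := by
        split_ifs
        · exact mul_nonneg hX0.le (hg0 n)
        · simp
      have : (0 : ℝ) ≤ if n < Y + 1 then 1 else 0 := by split_ifs <;> norm_num
      linarith
  have h3 := Finset.sum_le_sum h2
  rw [Finset.sum_add_distrib, ← Finset.mul_sum] at h3
  have e1 : (cn E X : ℝ) = ∑ n ∈ Finset.range X, (if n ∈ E then (1 : ℝ) else 0) := by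
    unfold cn
    rw [Finset.card_filter]
    push_cast
    rfl
  have e2 : ∑ n ∈ Finset.range X, (if n < Y + 1 then (1 : ℝ) else 0) ≤ Y + 1 := by
    have : ∑ n ∈ Finset.range X, (if n < Y + 1 then (1 : ℝ) else 0) = (((Finset.range X).filter (fun n => n < Y + 1)).card : ℝ) := by
      rw [Finset.card_filter]
      push_cast
      rfl
    rw [this]
    have h4 : ((Finset.range X).filter (fun n => n < Y + 1)).card ≤ (Finset.range (Y + 1)).card :=
      Finset.card_le_card fun n hn => Finset.mem_range.2 (Finset.mem_filter.1 hn).2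
    rw [Finset.card_range] at h4
    exact_mod_cast h4
  have e3 : ∑ n ∈ Finset.range X, (if Y ≤ n then g n else 0) ≤ ε / 2 := by
    have h5 : ∑ n ∈ Finset.range X, g n ≤ ∑' n, g n := h.sum_le_tsum _ fun n _ => hg0 n
    have h6 : ∑ n ∈ Finset.range X, g n = ∑ n ∈ Finset.range X, (if Y ≤ n then g n else 0) + ∑ n ∈ Finset.range Y, g n := by
      have h7 : ∑ n ∈ Finset.range X, g n = ∑ n ∈ Finset.range X, (if Y ≤ n then g n else 0) +
          ∑ n ∈ Finset.range X, (if Y ≤ n then 0 else g n) := by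
        rw [← Finset.sum_add_distrib]
        refine Finset.sum_congr rfl fun n _ => ?_
        split_ifs <;> simp
      rw [h7]
      congr 1
      rw [← Finset.sum_subset (Finset.range_mono (show Y ≤ X by omega))]
      · refine Finset.sum_congr rfl fun n hn => ?_
        rw [if_neg (by have := Finset.mem_range.1 hn; omega)]
      · intro n _ hn
        rw [if_pos (by rw [Finset.mem_range] at hn; omega)]
    have hY' : (∑' n, g n) - ε / 2 < ∑ n ∈ Finset.range Y, g n := hY
    linarith
  have e4 := mul_le_mul_of_nonneg_left e3 hX0.le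
  rw [e1]
  refine h3.trans ?_
  linarith

open Classical in
lemma cn_split (N : ℕ → ℕ) (R X : ℕ) : (X : ℝ) = ∑ r ∈ Finset.range R, (cn {x | N x = r} X : ℝ) + cn {x | R ≤ N x} X := by
  have h : ∀ x ∈ Finset.range X, (1 : ℝ) = ∑ r ∈ Finset.range R, (if N x = r then (1 : ℝ) else 0) + (if R ≤ N x then 1 else 0) := by
    intro x _
    by_cases h : R ≤ N x
    · rw [if_pos h, Finset.sum_eq_zero, zero_add]
      intro r hr
      rw [if_neg (by have := Finset.mem_range.1 hr; omega)]
    · rw [if_neg h, add_zero, Finset.sum_ite_eq, if_pos (Finset.mem_range.2 (by omega))]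
  have h1 : (X : ℝ) = ∑ x ∈ Finset.range X, (1 : ℝ) := by simp
  rw [h1, Finset.sum_congr rfl h, Finset.sum_add_distrib, Finset.sum_comm]
  congr 1
  · refine Finset.sum_congr rfl fun r _ => ?_
    unfold cn
    rw [Finset.card_filter]
    push_cast
    rfl
  · unfold cn
    rw [Finset.card_filter]
    push_cast
    rfl

/-- upper bounds for all frequencies suffice -/
theorem freq_lim (N : ℕ → ℕ) {p τ : ℕ → ℝ} (hp0 : ∀ r, 0 ≤ p r) (hp : HasSum p 1) (hτ : Tendsto τ atTop (𝓝 0))
    (h1 : ∀ r, UB {x | N x = r} (p r)) (h2 : ∀ R, UB {x | R ≤ N x} (τ R)) (r : ℕ) :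
    Tendsto (fun X : ℕ => (cn {x | N x = r} X : ℝ) / X) atTop (𝓝 (p r)) := by
  classical
  rw [Metric.tendsto_nhds]
  intro ε hε
  obtain ⟨R, hR1, hR2⟩ := ((hτ.eventually_lt_const (show (0 : ℝ) < ε / 4 by positivity)).and (eventually_gt_atTop r)).exists
  set η : ℝ := ε / (4 * (R + 1)) with hη
  have hη0 : 0 < η := by positivity
  have hall : ∀ᶠ X : ℕ in atTop, ∀ r' ∈ Finset.range R, (cn {x | N x = r'} X : ℝ) ≤ (p r' + η) * X :=
    (Finset.eventually_all _).2 fun r' _ => h1 r' η hη0
  filter_upwards [hall, h2 R η hη0, h1 r (ε / 2) (by positivity), eventually_gt_atTop 0] with X h3 h4 h5 hX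
  have hX0 : (0 : ℝ) < X := by exact_mod_cast hX
  rw [Real.dist_eq, abs_lt]
  constructor
  · have h6 := cn_split N R X
    rw [← Finset.add_sum_erase _ _ (Finset.mem_range.2 hR2)] at h6
    have h7 : ∑ r' ∈ (Finset.range R).erase r, (cn {x | N x = r'} X : ℝ) ≤ ∑ r' ∈ (Finset.range R).erase r, (p r' + η) * X :=
      Finset.sum_le_sum fun r' hr' => h3 r' (Finset.mem_of_mem_erase hr')
    have h8 : ∑ r' ∈ (Finset.range R).erase r, (p r' + η) * X + p r * X ≤ (1 + R * η) * X := by
      rw [← Finset.sum_mul, ← add_mul]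
      refine mul_le_mul_of_nonneg_right ?_ hX0.le
      rw [Finset.sum_add_distrib, Finset.sum_const, nsmul_eq_mul]
      have h9 : ∑ r' ∈ Finset.range R, p r' ≤ 1 := sum_le_hasSum _ (fun r' _ => hp0 r') hp
      rw [← Finset.add_sum_erase _ _ (Finset.mem_range.2 hR2)] at h9
      have h10 : (((Finset.range R).erase r).card : ℝ) ≤ R := by
        have := Finset.card_erase_le (s := Finset.range R) (a := r)
        rw [Finset.card_range] at this
        exact_mod_cast this
      have h11 := mul_le_mul_of_nonneg_right h10 hη0.le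
      linarith
    have h9 : (R + 1) * η = ε / 4 := by
      rw [hη]
      field_simp
    have h10 : (τ R + η) * X ≤ (ε / 4 + η) * X := mul_le_mul_of_nonneg_right (by linarith) hX0.le
    have h11 : (p r - ε / 2) * X ≤ cn {x | N x = r} X := by nlinarith
    have h12 : p r - ε / 2 ≤ (cn {x | N x = r} X : ℝ) / X := by
      rw [le_div_iff₀ hX0]
      exact h11
    linarith
  · have h12 : (cn {x | N x = r} X : ℝ) / X ≤ p r + ε / 2 := by
      rw [div_le_iff₀ hX0]
      exact h5
    linarith

end Pool.Agent.N315.PL
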