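import Mathlib
import Pool.Agent.N315.PL.Fr
import Pool.Agent.N315.CC.Trial

/-!
# A law of large numbers for windows
-/

set_option autoImplicit false
set_option linter.unusedSectionVars false

open MeasureTheory Filter Set
open scoped ENNReal Topology

namespace Pool.Agent.N315.PL

variable {Ω : Type} {m0 : MeasurableSpace Ω} {μ : Measure Ω} [IsProbabilityMeasure μ]
  {ℱ : Filtration ℕ m0}

open Classical in
/-- the number of the events `D K, ..., D (K + n - 1)` which occur -/
noncomputable def CT (D : ℕ → Set Ω) (K n : ℕ) (ω : Ω) : ℕ := ∑ j ∈ Finset.range n, if ω ∈ D (K + j) then 1 else 0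

open Classical in
lemma CT_succ (D : ℕ → Set Ω) (K n : ℕ) (ω : Ω) : CT D K (n + 1) ω = CT D (K + 1) n ω + if ω ∈ D K then 1 else 0 := by
  unfold CT
  rw [Finset.sum_range_succ']
  congr 1
  apply Finset.sum_congr rfl
  intro r _
  rw [show K + (r + 1) = K + 1 + r by omega]

theorem cnt_tail {s : ℕ → ℕ} {D : ℕ → Set Ω} {q σ : ℝ} (hD : ∀ j, MeasurableSet[ℱ (s (j + 1))] (D j)) (hs : Monotone s)
    (hq : ∀ j B, MeasurableSet[ℱ (s j)] B → μ.real (B ∩ D j) ≤ q * μ.real B) (hσ : 0 ≤ σ) (hq0 : 0 ≤ q) (n : ℕ) :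
    ∀ K c B, MeasurableSet[ℱ (s K)] B →
      (1 + σ) ^ c * μ.real (B ∩ {ω | c ≤ CT D K n ω}) ≤ (1 + σ * q) ^ n * μ.real B := by
  classical
  induction n with
  | zero =>
    intro K c B hB
    rcases Nat.eq_zero_or_pos c with h | h
    · subst h
      rw [pow_zero, pow_zero, one_mul, one_mul]
      exact measureReal_mono inter_subset_left
    · have e : B ∩ {ω | c ≤ CT D K 0 ω} = ∅ := by
        rw [eq_empty_iff_forall_notMem]
        rintro ω ⟨_, h2⟩
        have h2 : c ≤ CT D K 0 ω := h2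
        simp [CT] at h2
        omega
      rw [e, measureReal_empty, mul_zero]
      positivity
  | succ n ih =>
    intro K c B hB
    have h1q : 0 ≤ σ * q := by positivity
    have hD0 : MeasurableSet (D K) := ℱ.le _ _ (hD K)
    rcases Nat.eq_zero_or_pos c with h | h
    · subst h
      rw [pow_zero, one_mul]
      refine (measureReal_mono inter_subset_left).trans ?_
      exact le_mul_of_one_le_left measureReal_nonneg (one_le_pow₀ (by linarith))
    obtain ⟨c, rfl⟩ : ∃ c', c = c' + 1 := ⟨c - 1, by omega⟩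
    have hB1 : MeasurableSet[ℱ (s (K + 1))] (B ∩ D K) := (ℱ.mono (hs (by omega)) _ hB).inter (hD K)
    have hB2 : MeasurableSet[ℱ (s (K + 1))] (B \ D K) := (ℱ.mono (hs (by omega)) _ hB).diff (hD K)
    have i1 := ih (K + 1) c _ hB1
    have i2 := ih (K + 1) (c + 1) _ hB2
    set X : Set Ω := B ∩ {ω | c + 1 ≤ CT D K (n + 1) ω} with hX
    have e1 := measureReal_inter_add_sdiff (μ := μ) (s := X) hD0
    have e2 := measureReal_inter_add_sdiff (μ := μ) (s := B) hD0
    have s1 : X ∩ D K ⊆ (B ∩ D K) ∩ {ω | c ≤ CT D (K + 1) n ω} := by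
      rintro ω ⟨⟨h1, h2⟩, h3⟩
      have h2 : c + 1 ≤ CT D K (n + 1) ω := h2
      rw [CT_succ, if_pos h3] at h2
      refine ⟨⟨h1, h3⟩, ?_⟩
      show c ≤ CT D (K + 1) n ω
      omega
    have s2 : X \ D K ⊆ (B \ D K) ∩ {ω | c + 1 ≤ CT D (K + 1) n ω} := by
      rintro ω ⟨⟨h1, h2⟩, h3⟩
      have h2 : c + 1 ≤ CT D K (n + 1) ω := h2
      rw [CT_succ, if_neg h3] at h2
      exact ⟨⟨h1, h3⟩, h2⟩
    have h4 := measureReal_mono (μ := μ) s1
    have h5 := measureReal_mono (μ := μ) s2
    have h6 : (0 : ℝ) ≤ (1 + σ) ^ c := by positivity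
    have h7 : (1 + σ) ^ (c + 1) * μ.real (X ∩ D K) ≤ (1 + σ) * ((1 + σ * q) ^ n * μ.real (B ∩ D K)) := by
      rw [pow_succ']
      calc (1 + σ) * (1 + σ) ^ c * μ.real (X ∩ D K) = (1 + σ) * ((1 + σ) ^ c * μ.real (X ∩ D K)) := by ring
        _ ≤ (1 + σ) * ((1 + σ * q) ^ n * μ.real (B ∩ D K)) := by
          refine mul_le_mul_of_nonneg_left ((mul_le_mul_of_nonneg_left h4 h6).trans i1) (by linarith)
    have h8 : (1 + σ) ^ (c + 1) * μ.real (X \ D K) ≤ (1 + σ * q) ^ n * μ.real (B \ D K) :=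
      (mul_le_mul_of_nonneg_left h5 (by positivity)).trans i2
    have h9 := hq K B hB
    have h10 : (0 : ℝ) ≤ (1 + σ * q) ^ n := by positivity
    rw [← e1, mul_add]
    refine (add_le_add h7 h8).trans ?_
    calc (1 + σ) * ((1 + σ * q) ^ n * μ.real (B ∩ D K)) + (1 + σ * q) ^ n * μ.real (B \ D K)
        = (1 + σ * q) ^ n * (μ.real B + σ * μ.real (B ∩ D K)) := by
          rw [← e2]
          ring
      _ ≤ (1 + σ * q) ^ n * (μ.real B + σ * (q * μ.real B)) := by
          refine mul_le_mul_of_nonneg_left ?_ h10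
          have := mul_le_mul_of_nonneg_left h9 hσ
          linarith
      _ = _ := by ring

/-- the exponential bound -/
theorem cnt_exp {s : ℕ → ℕ} {D : ℕ → Set Ω} {q ε : ℝ} (hD : ∀ j, MeasurableSet[ℱ (s (j + 1))] (D j)) (hs : Monotone s)
    (hq : ∀ j B, MeasurableSet[ℱ (s j)] B → μ.real (B ∩ D j) ≤ q * μ.real B) (hq0 : 0 ≤ q) (hε : 0 < ε) (n : ℕ)
    {κ : ℝ} (hκ : κ = ε / (2 * (q + 1)) * ε / (2 * (1 + ε / (2 * (q + 1))))) (c : ℕ) (hc : (q + ε) * n ≤ c) :
    μ.real {ω | c ≤ CT D 0 n ω} ≤ Real.exp (-(κ * n)) := by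
  set σ : ℝ := ε / (2 * (q + 1)) with hσ
  have hσ0 : 0 < σ := by positivity
  have h1 := cnt_tail (μ := μ) hD hs hq hσ0.le hq0 n 0 c univ MeasurableSet.univ
  rw [univ_inter, probReal_univ, mul_one] at h1
  have h2 : (1 + σ * q) ^ n ≤ Real.exp (σ * q * n) := by
    have h3 : 1 + σ * q ≤ Real.exp (σ * q) := by
      have := Real.add_one_le_exp (σ * q)
      linarith
    calc (1 + σ * q) ^ n ≤ Real.exp (σ * q) ^ n := pow_le_pow_left₀ (by positivity) h3 n
      _ = _ := by rw [← Real.exp_nat_mul]; ring_nf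
  have h3 : Real.exp (σ / (1 + σ) * c) ≤ (1 + σ) ^ c := by
    have h4 : σ / (1 + σ) ≤ Real.log (1 + σ) := by
      have := Real.one_sub_inv_le_log_of_pos (show 0 < 1 + σ by linarith)
      have e : 1 - (1 + σ)⁻¹ = σ / (1 + σ) := by
        field_simp
        ring
      rwa [e] at this
    calc Real.exp (σ / (1 + σ) * c) ≤ Real.exp (Real.log (1 + σ) * c) :=
          Real.exp_le_exp.2 (mul_le_mul_of_nonneg_right h4 (Nat.cast_nonneg c))
      _ = (1 + σ) ^ c := by
          rw [mul_comm, Real.exp_nat_mul, Real.exp_log (by linarith)]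
  have h4 : μ.real {ω | c ≤ CT D 0 n ω} ≤ Real.exp (σ * q * n) / Real.exp (σ / (1 + σ) * c) := by
    rw [le_div_iff₀ (Real.exp_pos _), mul_comm]
    refine le_trans ?_ (h1.trans h2)
    exact mul_le_mul_of_nonneg_right h3 measureReal_nonneg
  refine h4.trans ?_
  rw [← Real.exp_sub]
  apply Real.exp_le_exp.2
  have h5 : σ / (1 + σ) * ((q + ε) * n) ≤ σ / (1 + σ) * c := mul_le_mul_of_nonneg_left hc (by positivity)
  have h6 : σ * q - σ / (1 + σ) * (q + ε) ≤ -κ := by
    rw [hκ]
    have h7 : σ * q ≤ ε / 2 := by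
      rw [hσ, div_mul_eq_mul_div, div_le_div_iff₀ (by positivity) (by norm_num)]
      nlinarith
    have e : σ * q - σ / (1 + σ) * (q + ε) = σ * (σ * q - ε) / (1 + σ) := by
      field_simp
      ring
    rw [e, ← neg_div, div_le_div_iff₀ (by positivity) (by positivity)]
    nlinarith [mul_pos hσ0 (show (0 : ℝ) < 1 + σ by linarith), mul_nonneg (mul_nonneg hσ0.le (show (0 : ℝ) ≤ 1 + σ by linarith)) (show 0 ≤ ε / 2 - σ * q by linarith)]
  have hn : (0 : ℝ) ≤ n := Nat.cast_nonneg n
  nlinarith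

lemma sum_sqrt {κ : ℝ} (hκ : 0 < κ) : Summable (fun X : ℕ => Real.sqrt X * Real.exp (-(κ * Real.sqrt X))) := by
  have h1 : Tendsto (fun X : ℕ => κ * Real.sqrt X) atTop atTop :=
    (Real.tendsto_sqrt_atTop.comp tendsto_natCast_atTop_atTop).const_mul_atTop hκ
  have h2 := (Real.tendsto_pow_mul_exp_neg_atTop_nhds_zero 5).comp h1
  refine Summable.of_norm_bounded_eventually_nat (Real.summable_one_div_nat_pow.2 (show 1 < 2 by norm_num)) ?_
  filter_upwards [h2.eventually_lt_const (show (0 : ℝ) < κ ^ 5 by positivity), eventually_gt_atTop 0] with X hX hX0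
  have hX0' : (0 : ℝ) < X := by exact_mod_cast hX0
  rw [Real.norm_of_nonneg (by positivity), le_div_iff₀ (by positivity)]
  have hX : (κ * Real.sqrt X) ^ 5 * Real.exp (-(κ * Real.sqrt X)) < κ ^ 5 := hX
  have e : Real.sqrt X * Real.exp (-(κ * Real.sqrt X)) * (X : ℝ) ^ 2 = (κ * Real.sqrt X) ^ 5 * Real.exp (-(κ * Real.sqrt X)) / κ ^ 5 := by
    have h3 : Real.sqrt X ^ 2 = X := Real.sq_sqrt hX0'.le
    have h4 : (X : ℝ) ^ 2 = Real.sqrt X ^ 4 := by
      calc (X : ℝ) ^ 2 = (Real.sqrt X ^ 2) ^ 2 := by rw [h3]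
        _ = _ := by ring
    rw [h4]
    field_simp
  rw [e, div_le_one (by positivity)]
  exact hX.le

/-- **a law of large numbers for windows** -/
theorem lln {t R : ℕ → ℕ} {D : ℕ → Set Ω} {q : ℝ} (ht : Monotone t) (hR1 : ∀ X, 0 < R X)
    (hR2 : ∀ᶠ X : ℕ in atTop, (R X : ℝ) ≤ Real.sqrt X)
    (hD : ∀ X x, x < X → MeasurableSet[ℱ (t (x + R X))] (D x)) (hq0 : 0 ≤ q)
    (hq : ∀ᶠ x in atTop, ∀ B, MeasurableSet[ℱ (t x)] B → μ.real (B ∩ D x) ≤ q * μ.real B) :
    ∀ᵐ ω ∂μ, UB {x | ω ∈ D x} q := by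
  classical
  obtain ⟨x₀, hx₀⟩ := eventually_atTop.1 hq
  have key : ∀ ε : ℝ, 0 < ε → ∀ᵐ ω ∂μ, ∀ᶠ X : ℕ in atTop, (cn {x | ω ∈ D x} X : ℝ) ≤ (q + 2 * ε) * X := by
    intro ε hε
    set κ : ℝ := ε / (2 * (q + 1)) * ε / (2 * (1 + ε / (2 * (q + 1)))) with hκ
    have hκ0 : 0 < κ := by positivity
    set n : ℕ → ℕ := fun X => X / R X + 1 with hn
    set c : ℕ → ℕ := fun X => ⌈(q + ε) * (n X : ℝ)⌉₊ with hc
    set D' : ℕ → ℕ → Set Ω := fun X x => if x₀ ≤ x ∧ x < X then D x else ∅ with hD'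
    set bad : ℕ → Set Ω := fun X => ⋃ r ∈ Finset.range (R X), {ω | c X ≤ CT (fun j => D' X (r + j * R X)) 0 (n X) ω} with hbad
    have h1 : ∀ X r, μ.real {ω | c X ≤ CT (fun j => D' X (r + j * R X)) 0 (n X) ω} ≤ Real.exp (-(κ * n X)) := by
      intro X r
      refine cnt_exp (μ := μ) (ℱ := ℱ) (s := fun j => t (r + j * R X)) (q := q) (ε := ε) ?_ ?_ ?_ hq0 hε (n X) hκ (c X) (Nat.le_ceil _)
      · intro j
        simp only [hD']
        by_cases h : x₀ ≤ r + j * R X ∧ r + j * R X < X
        · rw [if_pos h]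
          have := hD X _ h.2
          rw [show r + j * R X + R X = r + (j + 1) * R X by ring] at this
          exact this
        · rw [if_neg h]
          exact @MeasurableSet.empty _ (ℱ (t (r + (j + 1) * R X)))
      · intro a b hab
        exact ht (by nlinarith)
      · intro j B hB
        simp only [hD']
        by_cases h : x₀ ≤ r + j * R X ∧ r + j * R X < X
        · rw [if_pos h]
          exact hx₀ _ h.1 B hB
        · rw [if_neg h, inter_empty, measureReal_empty]
          exact mul_nonneg hq0 measureReal_nonneg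
    have h2 : ∀ X, μ.real (bad X) ≤ R X * Real.exp (-(κ * n X)) := by
      intro X
      refine (measureReal_biUnion_finset_le _ _).trans ?_
      refine (Finset.sum_le_card_nsmul _ _ _ fun r _ => h1 X r).trans ?_
      rw [Finset.card_range, nsmul_eq_mul]
    have hsum : ∑' X : ℕ, μ (bad X) ≠ ∞ := by
      have h3 : Summable (fun X : ℕ => μ.real (bad X)) := by
        refine Summable.of_norm_bounded_eventually_nat (sum_sqrt hκ0) ?_
        filter_upwards [hR2, eventually_gt_atTop 0] with X hX hX0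
        rw [Real.norm_of_nonneg measureReal_nonneg]
        refine (h2 X).trans ?_
        refine mul_le_mul hX (Real.exp_le_exp.2 ?_) (Real.exp_pos _).le (Real.sqrt_nonneg _)
        have h4 : Real.sqrt X ≤ n X := by
          have h5 : X < R X * n X := by
            simp only [hn]
            exact Nat.lt_mul_div_succ X (hR1 X)
          have h6 : (X : ℝ) ≤ R X * n X := by exact_mod_cast h5.le
          have h7 : (X : ℝ) ≤ Real.sqrt X * n X := h6.trans (mul_le_mul_of_nonneg_right hX (Nat.cast_nonneg _))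
          have hs : 0 < Real.sqrt X := Real.sqrt_pos.2 (by exact_mod_cast hX0)
          have h8 : Real.sqrt X * Real.sqrt X ≤ Real.sqrt X * n X := by
            rw [Real.mul_self_sqrt (Nat.cast_nonneg X)]
            exact h7
          exact le_of_mul_le_mul_left h8 hs
        have := mul_le_mul_of_nonneg_left h4 hκ0.le
        linarith
      have h4 : ∑' X : ℕ, μ (bad X) = ENNReal.ofReal (∑' X : ℕ, μ.real (bad X)) := by
        rw [ENNReal.ofReal_tsum_of_nonneg (fun _ => measureReal_nonneg) h3]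
        congr 1
        funext i
        exact (ofReal_measureReal (measure_ne_top _ _)).symm
      rw [h4]
      exact ENNReal.ofReal_ne_top
    filter_upwards [ae_eventually_notMem hsum] with ω hω
    have hs1 : Tendsto (fun X : ℕ => Real.sqrt X) atTop atTop := Real.tendsto_sqrt_atTop.comp tendsto_natCast_atTop_atTop
    filter_upwards [hω, hR2, hs1.eventually_ge_atTop ((x₀ + (q + ε + 1)) / ε + 1), eventually_gt_atTop 0] with X hX hR hs hX0
    -- the count
    have h3 : ∀ r ∈ Finset.range (R X), (CT (fun j => D' X (r + j * R X)) 0 (n X) ω : ℝ) ≤ (q + ε) * n X + 1 := by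
      intro r hr
      have h4 : ¬ c X ≤ CT (fun j => D' X (r + j * R X)) 0 (n X) ω := fun h => hX (mem_biUnion hr h)
      have h5 : (CT (fun j => D' X (r + j * R X)) 0 (n X) ω : ℝ) ≤ c X := by exact_mod_cast (not_le.1 h4).le
      exact h5.trans (Nat.ceil_lt_add_one (by positivity)).le
    have h4 : cn {x | ω ∈ D x} X ≤ x₀ + ∑ r ∈ Finset.range (R X), CT (fun j => D' X (r + j * R X)) 0 (n X) ω := by
      have h5 : (Finset.range X).filter (fun x => x ∈ {x | ω ∈ D x}) ⊆ Finset.range x₀ ∪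
          (Finset.range (R X)).biUnion (fun r => ((Finset.range (n X)).filter (fun j => ω ∈ D' X (r + j * R X))).image (fun j => r + j * R X)) := by
        intro x hx
        have hx := Finset.mem_filter.1 hx
        have hx1 := Finset.mem_range.1 hx.1
        have hx2 : ω ∈ D x := hx.2
        rw [Finset.mem_union]
        by_cases h : x < x₀
        · exact Or.inl (Finset.mem_range.2 h)
        · right
          have e : x % R X + x / R X * R X = x := by
            rw [mul_comm]
            exact Nat.mod_add_div x (R X)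
          refine Finset.mem_biUnion.2 ⟨x % R X, Finset.mem_range.2 (Nat.mod_lt _ (hR1 X)), Finset.mem_image.2 ⟨x / R X, ?_, e⟩⟩
          refine Finset.mem_filter.2 ⟨Finset.mem_range.2 ?_, ?_⟩
          · simp only [hn]
            have := Nat.div_le_div_right (c := R X) hx1.le
            omega
          · rw [e]
            simp only [hD']
            rw [if_pos ⟨not_lt.1 h, hx1⟩]
            exact hx2
      unfold cn
      refine (Finset.card_le_card h5).trans ((Finset.card_union_le _ _).trans ?_)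
      rw [Finset.card_range]
      refine Nat.add_le_add_left (Finset.card_biUnion_le.trans (Finset.sum_le_sum fun r _ => ?_)) _
      refine Finset.card_image_le.trans (le_of_eq ?_)
      rw [Finset.card_filter]
      unfold CT
      simp only [Nat.zero_add]
    have h5 : (cn {x | ω ∈ D x} X : ℝ) ≤ x₀ + R X * ((q + ε) * n X + 1) := by
      have h6 : (cn {x | ω ∈ D x} X : ℝ) ≤ x₀ + ∑ r ∈ Finset.range (R X), (CT (fun j => D' X (r + j * R X)) 0 (n X) ω : ℝ) := by
        exact_mod_cast h4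
      refine h6.trans (add_le_add le_rfl ?_)
      refine (Finset.sum_le_card_nsmul _ _ _ h3).trans ?_
      rw [Finset.card_range, nsmul_eq_mul]
    have h6 : (R X : ℝ) * n X ≤ X + R X := by
      have h7 : R X * (X / R X) ≤ X := Nat.mul_div_le X (R X)
      have h8 : R X * n X ≤ X + R X := by
        simp only [hn]
        rw [mul_add, mul_one]
        omega
      exact_mod_cast h8
    have hsX : Real.sqrt X * Real.sqrt X = X := Real.mul_self_sqrt (Nat.cast_nonneg X)
    have hqe : 0 < q + ε := by linarith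
    have h7 : (cn {x | ω ∈ D x} X : ℝ) ≤ x₀ + (q + ε) * (X + Real.sqrt X) + Real.sqrt X := by
      refine h5.trans ?_
      have h8 : (q + ε) * (R X * n X) ≤ (q + ε) * (X + Real.sqrt X) := mul_le_mul_of_nonneg_left (by linarith) hqe.le
      linarith
    have hs2 : (x₀ + (q + ε + 1)) ≤ ε * Real.sqrt X := by
      have h8 : (x₀ + (q + ε + 1)) / ε ≤ Real.sqrt X := by linarith
      rw [div_le_iff₀ hε] at h8
      linarith
    have hs3 : 1 ≤ Real.sqrt X := by
      have : 0 ≤ (x₀ + (q + ε + 1)) / ε := by positivity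
      linarith
    have h8 : (x₀ + (q + ε + 1)) * Real.sqrt X ≤ ε * X := by
      calc (x₀ + (q + ε + 1)) * Real.sqrt X ≤ (ε * Real.sqrt X) * Real.sqrt X :=
            mul_le_mul_of_nonneg_right hs2 (Real.sqrt_nonneg _)
        _ = ε * X := by rw [mul_assoc, hsX]
    have h9 : (x₀ : ℝ) ≤ x₀ * Real.sqrt X := le_mul_of_one_le_right (Nat.cast_nonneg _) hs3
    linarith
  have h1 : ∀ᵐ ω ∂μ, ∀ j : ℕ, ∀ᶠ X : ℕ in atTop, (cn {x | ω ∈ D x} X : ℝ) ≤ (q + 2 * (1 / ((j : ℝ) + 1))) * X :=
    ae_all_iff.2 fun j => key _ (by positivity)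
  filter_upwards [h1] with ω hω ε hε
  obtain ⟨j, hj⟩ := exists_nat_gt (2 / ε)
  filter_upwards [hω j] with X hX
  refine hX.trans (mul_le_mul_of_nonneg_right ?_ (Nat.cast_nonneg X))
  have : 2 * (1 / ((j : ℝ) + 1)) ≤ ε := by
    rw [mul_one_div, div_le_iff₀ (by positivity)]
    rw [div_lt_iff₀ hε] at hj
    nlinarith
  linarith

end Pool.Agent.N315.PL
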