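import Mathlib
import Pool.Agent.N315.PL.Fr
import Pool.Agent.N740.HK.Conc

/-!
# Concentration for most members of a sequence of predictable families of trials
-/

set_option autoImplicit false
set_option linter.unusedSectionVars false

open MeasureTheory Filter Set
open scoped ENNReal Topology

namespace Pool.Agent.N315.PL

open Pool.Agent.R528.RM Pool.Agent.N740.HK

variable {Ω : Type} {m0 : MeasurableSpace Ω} {μ : Measure Ω} [IsProbabilityMeasure μ]
  {ℱ : Filtration ℕ m0} {A : ℕ → Set Ω}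

lemma tail_k (hA : ∀ n, MeasurableSet[ℱ n] (A n)) {θ κ : ℝ} (hθ : |θ| ≤ 1) {w : ℕ → Ω → ℝ}
    (hw : ∀ n, StronglyMeasurable[ℱ n] (w n)) (h01 : ∀ n ω, 0 ≤ w n ω ∧ w n ω ≤ 1) (N n : ℕ) (hn : 0 < n) :
    μ.real {ω | κ * Real.log n ≤ SS μ ℱ A θ w N ω} ≤ 1 / (n : ℝ) ^ κ := by
  have hn' : (0 : ℝ) < n := by exact_mod_cast hn
  have i3 : Integrable (fun ω => Real.exp (SS μ ℱ A θ w N ω)) μ := by
    refine intb (c := Real.exp (2 * N)) ((Real.continuous_exp.comp_stronglyMeasurable (SS_meas hA hw N)).mono (ℱ.le _)) fun ω => ?_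
    rw [abs_of_nonneg (Real.exp_pos _).le]
    exact Real.exp_le_exp.2 ((le_abs_self _).trans (SS_abs hθ h01 N ω))
  have h1 := mul_meas_ge_le_integral_of_nonneg (Eventually.of_forall fun ω => (Real.exp_pos (SS μ ℱ A θ w N ω)).le) i3 ((n : ℝ) ^ κ)
  have h2 : {ω | (n : ℝ) ^ κ ≤ Real.exp (SS μ ℱ A θ w N ω)} = {ω | κ * Real.log n ≤ SS μ ℱ A θ w N ω} := by
    ext ω
    simp only [mem_ofPred_eq]
    rw [← Real.log_le_iff_le_exp (by positivity), Real.log_rpow hn']
  rw [h2] at h1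
  have h3 := SS_exp (μ := μ) hA hθ hw h01 N
  rw [le_div_iff₀ (by positivity)]
  linarith

theorem dz_of_prob {E : ℕ → Set Ω} (hE : ∀ n, MeasurableSet (E n)) {κ : ℝ} (hκ : 0 < κ)
    (h : ∀ n : ℕ, 0 < n → μ.real (E n) ≤ 1 / (n : ℝ) ^ κ) : ∀ᵐ ω ∂μ, UB {n | ω ∈ E n} 0 := by
  classical
  set f : ℕ → Ω → ℝ≥0∞ := fun n => (E n).indicator (fun _ => ENNReal.ofReal (1 / (n : ℝ))) with hf
  have hfm : ∀ n, Measurable (f n) := fun n => measurable_const.indicator (hE n)
  have h1 : ∫⁻ ω, ∑' n, f n ω ∂μ = ∑' n : ℕ, ENNReal.ofReal ((1 / (n : ℝ)) * μ.real (E n)) := by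
    rw [lintegral_tsum (fun n => (hfm n).aemeasurable)]
    congr 1
    funext n
    simp only [hf]
    rw [lintegral_indicator (hE n), setLIntegral_const, ENNReal.ofReal_mul (by positivity), ofReal_measureReal (measure_ne_top _ _)]
  have hs : Summable (fun n : ℕ => (1 / (n : ℝ)) * μ.real (E n)) := by
    refine Summable.of_norm_bounded_eventually_nat (Real.summable_one_div_nat_rpow.2 (show 1 < 1 + κ by linarith)) ?_
    filter_upwards [eventually_gt_atTop 0] with n hn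
    have hn' : (0 : ℝ) < n := by exact_mod_cast hn
    rw [Real.norm_of_nonneg (by positivity), Real.rpow_add hn', Real.rpow_one, ← one_div_mul_one_div]
    exact mul_le_mul_of_nonneg_left (h n hn) (by positivity)
  have h2 : ∫⁻ ω, ∑' n, f n ω ∂μ ≠ ∞ := by
    rw [h1, ← ENNReal.ofReal_tsum_of_nonneg (fun n => by positivity) hs]
    exact ENNReal.ofReal_ne_top
  have h3 := ae_lt_top (Measurable.ennreal_tsum hfm) h2
  filter_upwards [h3] with ω hω
  apply UB_of_summable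
  refine (ENNReal.summable_toReal hω.ne).congr fun n => ?_
  simp only [hf]
  by_cases hn : ω ∈ E n
  · rw [indicator_of_mem hn, if_pos (show n ∈ {n | ω ∈ E n} from hn), ENNReal.toReal_ofReal (by positivity)]
  · rw [indicator_of_notMem hn, if_neg (show n ∉ {n | ω ∈ E n} from hn), ENNReal.toReal_zero]

lemma conc_V (hA : ∀ n, MeasurableSet[ℱ n] (A n)) {θ : ℝ} (hθ0 : 0 < θ) (hθ' : θ ≤ 1) (w : ℕ → ℕ → Ω → ℝ) (E : ℕ → ℕ)
    (hw : ∀ n t, StronglyMeasurable[ℱ t] (w n t)) (h01 : ∀ n t ω, 0 ≤ w n t ω ∧ w n t ω ≤ 1) :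
    ∀ᵐ ω ∂μ, UB {n | ¬ |∑ t ∈ Finset.range (E n), w n t ω * J1 A (t + 1) ω -
        ∑ t ∈ Finset.range (E n), w n t ω * dens μ ℱ A t ω| ≤
        θ * (∑ t ∈ Finset.range (E n), w n t ω * dens μ ℱ A t ω) + θ * Real.log n} 0 := by
  have hθ1 : |θ| ≤ 1 := by rwa [abs_of_pos hθ0]
  have hθ1' : |-θ| ≤ 1 := by rwa [abs_neg]
  have hsum : ∀ η : ℝ, |η| ≤ 1 → ∀ᵐ ω ∂μ, UB {n | ω ∈ {ω | θ ^ 2 * Real.log n ≤ SS μ ℱ A η (w n) (E n) ω}} 0 := by
    intro η hη
    refine dz_of_prob (μ := μ) (fun n => ?_) (show 0 < θ ^ 2 by positivity) (fun n hn => tail_k hA hη (hw n) (h01 n) (E n) n hn)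
    exact measurableSet_le measurable_const ((SS_meas hA (hw n) (E n)).mono (ℱ.le _)).measurable
  filter_upwards [hsum θ hθ1, hsum (-θ) hθ1', DD'_ae (μ := μ) hA] with ω h1 h2 h3
  have h12 := h1.union h2
  rw [add_zero] at h12
  refine h12.mono ?_
  intro n hn
  by_contra hcon
  apply hn
  rw [mem_union, not_or] at hcon
  have h4 : SS μ ℱ A θ (w n) (E n) ω < θ ^ 2 * Real.log n := not_le.1 hcon.1
  have h5 : SS μ ℱ A (-θ) (w n) (E n) ω < θ ^ 2 * Real.log n := not_le.1 hcon.2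
  have e0 : ∀ t, dens μ ℱ A t ω = DD' μ ℱ A t ω := fun t => (h3 t).symm
  simp_rw [e0]
  set V : ℝ := ∑ t ∈ Finset.range (E n), w n t ω * DD' μ ℱ A t ω with hV
  set M : ℝ := ∑ t ∈ Finset.range (E n), w n t ω * J1 A (t + 1) ω with hM
  have hV0 : 0 ≤ V := Finset.sum_nonneg fun t _ => mul_nonneg (h01 n t ω).1 (DD'_bd t ω).1
  have e1 : ∀ η : ℝ, SS μ ℱ A η (w n) (E n) ω = η * (M - V) - (Real.exp η - 1 - η) * V := by
    intro η
    unfold SS
    rw [Finset.sum_sub_distrib, ← Finset.mul_sum, ← Finset.mul_sum, hM, hV]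
    congr 1
    rw [← Finset.sum_sub_distrib]
    congr 1
    exact Finset.sum_congr rfl fun t _ => by ring
  rw [e1] at h4 h5
  obtain ⟨f1, f2⟩ := phi_facts hθ1
  obtain ⟨f3, f4⟩ := phi_facts hθ1'
  have g1 : (Real.exp θ - 1 - θ) * V ≤ θ ^ 2 * V := mul_le_mul_of_nonneg_right f2 hV0
  have g2 : (Real.exp (-θ) - 1 - -θ) * V ≤ θ ^ 2 * V := by
    apply mul_le_mul_of_nonneg_right _ hV0
    rw [neg_sq] at f4
    exact f4
  rw [abs_le]
  constructor
  · have h7 : θ * (-(θ * V + θ * Real.log n)) ≤ θ * (M - V) := by nlinarith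
    exact le_of_mul_le_mul_left h7 hθ0
  · have h7 : θ * (M - V) ≤ θ * (θ * V + θ * Real.log n) := by nlinarith
    exact le_of_mul_le_mul_left h7 hθ0

/-- **concentration for most members** -/
theorem conc_most (hA : ∀ n, MeasurableSet[ℱ n] (A n))
    (hd : ∀ᵐ ω ∂μ, Tendsto (fun n : ℕ => dens μ ℱ A n ω * Real.log n) atTop (𝓝 1))
    (w : ℕ → ℕ → Ω → ℝ) (E : ℕ → ℕ)
    (hw : ∀ n t, StronglyMeasurable[ℱ t] (w n t)) (h01 : ∀ n t ω, 0 ≤ w n t ω ∧ w n t ω ≤ 1) :
    ∀ᵐ ω ∂μ, ∀ ε : ℝ, 0 < ε → UB {n |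
      ¬ |∑ t ∈ Finset.range (E n), w n t ω * J1 A (t + 1) ω - ∑ t ∈ Finset.range (E n), w n t ω / Real.log t| ≤
        ε * (∑ t ∈ Finset.range (E n), w n t ω / Real.log t) + ε * Real.log n} 0 := by
  set e : ℕ → ℝ := fun k => 1 / ((k : ℝ) + 1) with he
  have he0 : ∀ k, 0 < e k := fun k => by simp only [he]; positivity
  have he1 : ∀ k, e k ≤ 1 := fun k => by
    simp only [he]
    rw [div_le_one (by positivity)]
    have : (0 : ℝ) ≤ k := Nat.cast_nonneg k
    linarith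
  have hall : ∀ᵐ ω ∂μ, ∀ k, UB {n | ¬ |∑ t ∈ Finset.range (E n), w n t ω * J1 A (t + 1) ω -
        ∑ t ∈ Finset.range (E n), w n t ω * dens μ ℱ A t ω| ≤
        e k * (∑ t ∈ Finset.range (E n), w n t ω * dens μ ℱ A t ω) + e k * Real.log n} 0 :=
    ae_all_iff.2 fun k => conc_V hA (he0 k) (he1 k) w E hw h01
  filter_upwards [hall, hd, DD'_ae (μ := μ) hA] with ω h1 h2 h3
  intro ε hε
  obtain ⟨k, hk⟩ : ∃ k : ℕ, e k ≤ ε / 4 := by
    obtain ⟨k, hk⟩ := exists_nat_gt (1 / (ε / 4))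
    refine ⟨k, ?_⟩
    simp only [he]
    rw [div_le_iff₀ (by positivity)]
    rw [div_lt_iff₀ (by positivity)] at hk
    nlinarith
  have hD1 : ∀ t, 0 ≤ dens μ ℱ A t ω ∧ dens μ ℱ A t ω ≤ 1 := fun t => by
    rw [← h3 t]
    exact DD'_bd t ω
  have hk2 := he1 k
  have h2' : ∀ᶠ n : ℕ in atTop, |dens μ ℱ A n ω - 1 / Real.log n| ≤ e k * (1 / Real.log n) := by
    have h4 := h2.eventually (Metric.ball_mem_nhds 1 (he0 k))
    filter_upwards [h4, eventually_ge_atTop 3] with n hn hn3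
    have hn3' : (3 : ℝ) ≤ n := by exact_mod_cast hn3
    have hL : 0 < Real.log n := Real.log_pos (by linarith)
    have hn : dist (dens μ ℱ A n ω * Real.log n) 1 < e k := hn
    rw [Real.dist_eq] at hn
    have e1 : dens μ ℱ A n ω - 1 / Real.log n = (dens μ ℱ A n ω * Real.log n - 1) / Real.log n := by
      field_simp
    rw [e1, abs_div, abs_of_pos hL, mul_one_div]
    exact div_le_div_of_nonneg_right hn.le hL.le
  obtain ⟨t₀, ht₀⟩ := eventually_atTop.1 h2'
  have hρ0 : ∀ t : ℕ, 0 ≤ 1 / Real.log t := fun t => div_nonneg zero_le_one (Real.log_natCast_nonneg t)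
  have hc : ∀ t : ℕ, 1 / Real.log t ≤ 2 := fun t => (le_abs_self _).trans (inv_log_bd t)
  have hcmp : ∀ n, |∑ t ∈ Finset.range (E n), w n t ω * dens μ ℱ A t ω - ∑ t ∈ Finset.range (E n), w n t ω / Real.log t| ≤
      e k * (∑ t ∈ Finset.range (E n), w n t ω / Real.log t) + t₀ * (1 + 2) := by
    intro n
    rw [← Finset.sum_sub_distrib]
    refine (Finset.abs_sum_le_sum_abs _ _).trans ?_
    have h4 : ∀ t ∈ Finset.range (E n), |w n t ω * dens μ ℱ A t ω - w n t ω / Real.log t| ≤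
        e k * (w n t ω / Real.log t) + (if t < t₀ then (1 + 2) else 0) := by
      intro t _
      have h5 := h01 n t ω
      rw [← mul_one_div (w n t ω), ← mul_sub, abs_mul, abs_of_nonneg h5.1]
      by_cases ht : t < t₀
      · rw [if_pos ht]
        have h6 : |dens μ ℱ A t ω - 1 / Real.log t| ≤ 1 + 2 := by
          rw [abs_le]
          have := hD1 t
          have := hρ0 t
          have := hc t
          constructor <;> linarith
        have h7 : w n t ω * |dens μ ℱ A t ω - 1 / Real.log t| ≤ 1 * (1 + 2) :=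
          mul_le_mul h5.2 h6 (abs_nonneg _) zero_le_one
        have h8 : 0 ≤ e k * (w n t ω * (1 / Real.log t)) := mul_nonneg (he0 k).le (mul_nonneg h5.1 (hρ0 t))
        linarith
      · rw [if_neg ht, add_zero]
        have h6 := ht₀ t (by omega)
        calc w n t ω * |dens μ ℱ A t ω - 1 / Real.log t| ≤ w n t ω * (e k * (1 / Real.log t)) := mul_le_mul_of_nonneg_left h6 h5.1
          _ = _ := by ring
    refine (Finset.sum_le_sum h4).trans ?_
    rw [Finset.sum_add_distrib, ← Finset.mul_sum]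
    apply add_le_add le_rfl
    rw [← Finset.sum_filter, Finset.sum_const, nsmul_eq_mul]
    apply mul_le_mul_of_nonneg_right _ (by norm_num)
    have : ((Finset.range (E n)).filter (fun t => t < t₀)).card ≤ (Finset.range t₀).card :=
      Finset.card_le_card fun t ht => Finset.mem_range.2 (Finset.mem_filter.1 ht).2
    rw [Finset.card_range] at this
    exact_mod_cast this
  have h5 : ∀ᶠ n : ℕ in atTop, (t₀ : ℝ) * (1 + 2) ≤ e k * Real.log n :=
    (tendsto_logN.const_mul_atTop (he0 k)).eventually_ge_atTop _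
  refine (h1 k).of_dz (UB_of_eventually (E := {n : ℕ | ¬ (t₀ : ℝ) * (1 + 2) ≤ e k * Real.log n}) ?_) ?_
  · filter_upwards [h5] with n hn hn'
    exact hn' hn
  · intro n hn
    by_contra hcon
    rw [mem_union, not_or] at hcon
    apply hn
    have h4 := not_not.1 hcon.1
    have h5 : (t₀ : ℝ) * (1 + 2) ≤ e k * Real.log n := not_not.1 hcon.2
    have h6 := hcmp n
    set V := ∑ t ∈ Finset.range (E n), w n t ω * dens μ ℱ A t ω with hV
    set U := ∑ t ∈ Finset.range (E n), w n t ω / Real.log t with hU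
    set M := ∑ t ∈ Finset.range (E n), w n t ω * J1 A (t + 1) ω with hM
    have hU0 : 0 ≤ U := Finset.sum_nonneg fun t _ => div_nonneg (h01 n t ω).1 (Real.log_natCast_nonneg t)
    have hT : 0 ≤ (t₀ : ℝ) * (1 + 2) := by positivity
    have h7 := abs_le.1 h6
    have h8 : V ≤ 2 * U + t₀ * (1 + 2) := by
      have : e k * U ≤ 1 * U := mul_le_mul_of_nonneg_right hk2 hU0
      linarith [h7.2]
    have h9 : e k * V ≤ e k * (2 * U + t₀ * (1 + 2)) := mul_le_mul_of_nonneg_left h8 (he0 k).le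
    have h10 : e k * (t₀ * (1 + 2)) ≤ 1 * (t₀ * (1 + 2)) := mul_le_mul_of_nonneg_right hk2 hT
    have h11 : |M - U| ≤ |M - V| + |V - U| := abs_sub_le _ _ _
    have h12 : e k * U ≤ ε / 4 * U := mul_le_mul_of_nonneg_right hk hU0
    have h13 : e k * Real.log n ≤ ε / 4 * Real.log n := mul_le_mul_of_nonneg_right hk (Real.log_natCast_nonneg n)
    nlinarith

end Pool.Agent.N315.PL
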