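import Mathlib
import Pool.Agent.N315.CC.Trial

/-!
# The number of successes of predictable trials
-/

set_option autoImplicit false
set_option linter.unusedSectionVars false

open MeasureTheory Filter Set
open scoped ENNReal Topology

namespace Pool.Agent.N315.PL

open Pool.Agent.R528.RM Pool.Agent.N740.HK Pool.Agent.N315.CC

variable {Ω : Type} {m0 : MeasurableSpace Ω} {μ : Measure Ω} [IsProbabilityMeasure μ]
  {ℱ : Filtration ℕ m0} {A G V : ℕ → Set Ω}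

open Classical in
/-- the number of successes at the times `t, ..., t + j - 1` -/
noncomputable def SG (A G : ℕ → Set Ω) (t j : ℕ) (ω : Ω) : ℕ :=
  ∑ r ∈ Finset.range j, if ω ∈ G (t + r) ∧ ω ∈ A (t + r + 1) then 1 else 0

open Classical in
lemma SG_succ (t j : ℕ) (ω : Ω) :
    SG A G t (j + 1) ω = SG A G (t + 1) j ω + if ω ∈ G t ∧ ω ∈ A (t + 1) then 1 else 0 := by
  unfold SG
  rw [Finset.sum_range_succ']
  congr 1
  apply Finset.sum_congr rfl
  intro r _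
  rw [show t + (r + 1) = t + 1 + r by omega]

lemma SG_meas (hA : ∀ n, MeasurableSet[ℱ n] (A n)) (hG : ∀ n, MeasurableSet[ℱ n] (G n)) (t j : ℕ) (P : ℕ → Prop) :
    MeasurableSet[ℱ (t + j)] {ω | P (SG A G t j ω)} := by
  classical
  have h : Measurable[ℱ (t + j)] (SG A G t j) := by
    unfold SG
    refine @Finset.measurable_fun_sum _ _ _ _ _ _ (ℱ (t + j)) _ _ fun r hr => ?_
    have hr := Finset.mem_range.1 hr
    have hm : MeasurableSet[ℱ (t + j)] {ω | ω ∈ G (t + r) ∧ ω ∈ A (t + r + 1)} :=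
      (ℱ.mono (by omega) _ (hG (t + r))).inter (ℱ.mono (by omega) _ (hA (t + r + 1)))
    exact Measurable.ite (f := fun _ => 1) (g := fun _ => 0) hm measurable_const measurable_const
  exact h (MeasurableSet.of_discrete (s := {x | P x}))

/-- the bound -/
noncomputable def be (l u : ℝ) (m₁ m₂ r : ℕ) : ℝ := (m₂.choose r : ℝ) * u ^ r * (1 - l) ^ (m₁ - r)

lemma be_nonneg {l u : ℝ} (hl : l ≤ 1) (hu : 0 ≤ u) (m₁ m₂ r : ℕ) : 0 ≤ be l u m₁ m₂ r := by
  unfold be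
  have : 0 ≤ 1 - l := by linarith
  positivity

lemma be_zero {l u : ℝ} (hl0 : 0 ≤ l) (hl : l ≤ 1) (m₁ m : ℕ) :
    (1 - l) * be l u (m₁ - 1) m 0 ≤ be l u m₁ (m + 1) 0 := by
  unfold be
  simp only [Nat.choose_zero_right, Nat.cast_one, pow_zero, one_mul, Nat.sub_zero]
  rcases Nat.eq_zero_or_pos m₁ with h | h
  · subst h
    simp only [Nat.zero_sub, pow_zero, mul_one]
    linarith
  · obtain ⟨m', rfl⟩ : ∃ m', m₁ = m' + 1 := ⟨m₁ - 1, by omega⟩
    rw [Nat.add_sub_cancel, pow_succ, mul_comm]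

lemma be_succ {l u : ℝ} (hl0 : 0 ≤ l) (hl : l ≤ 1) (hu : 0 ≤ u) (m₁ m r : ℕ) :
    u * be l u (m₁ - 1) m r + (1 - l) * be l u (m₁ - 1) m (r + 1) ≤ be l u m₁ (m + 1) (r + 1) := by
  unfold be
  have hq : 0 ≤ 1 - l := by linarith
  have e1 : m₁ - 1 - r = m₁ - (r + 1) := by omega
  have h1 : (1 - l) * (1 - l) ^ (m₁ - 1 - (r + 1)) ≤ (1 - l) ^ (m₁ - (r + 1)) := by
    rcases Nat.eq_zero_or_pos (m₁ - (r + 1)) with h | h
    · rw [h, show m₁ - 1 - (r + 1) = 0 by omega]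
      simp only [pow_zero, mul_one]
      linarith
    · rw [show m₁ - (r + 1) = (m₁ - 1 - (r + 1)) + 1 by omega, pow_succ, mul_comm]
  have h2 : (((m + 1).choose (r + 1) : ℕ) : ℝ) = (m.choose r : ℝ) + (m.choose (r + 1) : ℝ) := by
    rw [Nat.choose_succ_succ]
    push_cast
    ring
  rw [h2, e1]
  have h3 : (m.choose (r + 1) : ℝ) * u ^ (r + 1) * ((1 - l) * (1 - l) ^ (m₁ - 1 - (r + 1))) ≤
      (m.choose (r + 1) : ℝ) * u ^ (r + 1) * (1 - l) ^ (m₁ - (r + 1)) := mul_le_mul_of_nonneg_left h1 (by positivity)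
  have h4 : u * ((m.choose r : ℝ) * u ^ r * (1 - l) ^ (m₁ - (r + 1))) =
      (m.choose r : ℝ) * u ^ (r + 1) * (1 - l) ^ (m₁ - (r + 1)) := by ring
  rw [h4]
  calc _ = (m.choose r : ℝ) * u ^ (r + 1) * (1 - l) ^ (m₁ - (r + 1)) +
        (m.choose (r + 1) : ℝ) * u ^ (r + 1) * ((1 - l) * (1 - l) ^ (m₁ - 1 - (r + 1))) := by ring
    _ ≤ _ := by
      rw [add_mul, add_mul]
      exact add_le_add le_rfl h3

/-- the event: `r` successes and between `m₁` and `m₂` trials, no violation -/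
def EQ (A G V : ℕ → Set Ω) (t j m₁ m₂ r : ℕ) : Set Ω :=
  {ω | SG A G t j ω = r ∧ m₁ ≤ cG G t j ω ∧ cG G t j ω ≤ m₂} \ vG G V t j

/-- the event: at least `r` successes and at most `m₂` trials, no violation -/
def TL (A G V : ℕ → Set Ω) (t j m₂ r : ℕ) : Set Ω :=
  {ω | r ≤ SG A G t j ω ∧ cG G t j ω ≤ m₂} \ vG G V t j

lemma EQ_meas (hA : ∀ n, MeasurableSet[ℱ n] (A n)) (hG : ∀ n, MeasurableSet[ℱ n] (G n))
    (hV : ∀ n, MeasurableSet[ℱ n] (V n)) (t j m₁ m₂ r : ℕ) : MeasurableSet[ℱ (t + j)] (EQ A G V t j m₁ m₂ r) :=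
  ((SG_meas hA hG t j (fun x => x = r)).inter ((cG_meas hG t j (fun x => m₁ ≤ x)).inter
    (cG_meas hG t j (fun x => x ≤ m₂)))).diff (vG_meas hG hV t j)

lemma TL_meas (hA : ∀ n, MeasurableSet[ℱ n] (A n)) (hG : ∀ n, MeasurableSet[ℱ n] (G n))
    (hV : ∀ n, MeasurableSet[ℱ n] (V n)) (t j m₂ r : ℕ) : MeasurableSet[ℱ (t + j)] (TL A G V t j m₂ r) :=
  ((SG_meas hA hG t j (fun x => r ≤ x)).inter (cG_meas hG t j (fun x => x ≤ m₂))).diff (vG_meas hG hV t j)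

lemma cG_zero (t : ℕ) (ω : Ω) : cG G t 0 ω = 0 := by simp [cG]

lemma SG_zero (t : ℕ) (ω : Ω) : SG A G t 0 ω = 0 := by simp [SG]

theorem trial_eq (hA : ∀ n, MeasurableSet[ℱ n] (A n)) (hG : ∀ n, MeasurableSet[ℱ n] (G n))
    (hV : ∀ n, MeasurableSet[ℱ n] (V n)) {l u : ℝ} (hl0 : 0 ≤ l) (hl1 : l ≤ 1) (hu0 : 0 ≤ u) (j : ℕ) :
    ∀ t : ℕ, (∀ n, t ≤ n → n < t + j → ∀ ω, ω ∉ V n → l ≤ dens μ ℱ A n ω ∧ dens μ ℱ A n ω ≤ u) →
      ∀ (m₁ m₂ r : ℕ) (B : Set Ω), MeasurableSet[ℱ t] B →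
      μ.real (B ∩ EQ A G V t j m₁ m₂ r) ≤ be l u m₁ m₂ r * μ.real B := by
  classical
  induction j with
  | zero =>
    intro t _ m₁ m₂ r B _
    by_cases h : r = 0 ∧ m₁ = 0
    · obtain ⟨rfl, rfl⟩ := h
      have e : be l u 0 m₂ 0 = 1 := by simp [be]
      rw [e, one_mul]
      exact measureReal_mono inter_subset_left
    · have e : B ∩ EQ A G V t 0 m₁ m₂ r = ∅ := by
        rw [eq_empty_iff_forall_notMem]
        rintro ω ⟨_, ⟨h1, h2, h3⟩, _⟩
        rw [SG_zero] at h1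
        rw [cG_zero] at h2
        exact h ⟨h1.symm, by omega⟩
      rw [e, measureReal_empty]
      exact mul_nonneg (be_nonneg hl1 hu0 _ _ _) measureReal_nonneg
  | succ j ih =>
    intro t hlu m₁ m₂ r B hB
    have hq : 0 ≤ 1 - l := by linarith
    have ih := ih (t + 1) (fun n h1 h2 => hlu n (by omega) (by omega))
    have hG0 : MeasurableSet (G t) := ℱ.le _ _ (hG t)
    have hA0 : MeasurableSet (A (t + 1)) := ℱ.le _ _ (hA (t + 1))
    set X : Set Ω := B ∩ EQ A G V t (j + 1) m₁ m₂ r with hX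
    have e1 := measureReal_inter_add_sdiff (μ := μ) (s := X) hG0
    have e2 := measureReal_inter_add_sdiff (μ := μ) (s := B) hG0
    have e4 := measureReal_inter_add_sdiff (μ := μ) (s := X ∩ G t) hA0
    have hB1 : MeasurableSet[ℱ (t + 1)] (B \ G t) := ℱ.mono (by omega) _ (hB.diff (hG t))
    have i1 := ih m₁ m₂ r _ hB1
    have s1 : X \ G t ⊆ (B \ G t) ∩ EQ A G V (t + 1) j m₁ m₂ r := by
      rintro ω ⟨⟨h1, ⟨h2, h3, h3'⟩, h4⟩, h5⟩
      rw [SG_succ, if_neg (fun h => h5 h.1), add_zero] at h2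
      rw [cG_succ, if_neg h5, add_zero] at h3 h3'
      exact ⟨⟨h1, h5⟩, ⟨h2, h3, h3'⟩, fun h => h4 (vG_succ.2 (Or.inr h))⟩
    have i2 : μ.real (X \ G t) ≤ be l u m₁ m₂ r * μ.real (B \ G t) := (measureReal_mono s1).trans i1
    have i5 : μ.real (X ∩ G t) ≤ be l u m₁ m₂ r * μ.real (B ∩ G t) := by
      rcases Nat.eq_zero_or_pos m₂ with hm | hm
      · have e : X ∩ G t = ∅ := by
          rw [eq_empty_iff_forall_notMem]
          rintro ω ⟨⟨_, ⟨_, _, h3'⟩, _⟩, h5⟩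
          rw [cG_succ, if_pos h5] at h3'
          omega
        rw [e, measureReal_empty]
        exact mul_nonneg (be_nonneg hl1 hu0 _ _ _) measureReal_nonneg
      obtain ⟨m, rfl⟩ : ∃ m, m₂ = m + 1 := ⟨m₂ - 1, by omega⟩
      set C : Set Ω := (B ∩ G t) \ V t with hC
      have hCm : MeasurableSet[ℱ t] C := (hB.inter (hG t)).diff (hV t)
      have hCl : μ.real C ≤ μ.real (B ∩ G t) := measureReal_mono sdiff_subset
      have hlow := lower_meas (μ := μ) hA t hCm (l := l) (fun ω hω => (hlu t le_rfl (by omega) ω hω.2).1)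
      have hup := upper_meas (μ := μ) hA t hCm (u := u) (fun ω hω => (hlu t le_rfl (by omega) ω hω.2).2)
      have e3 := measureReal_inter_add_sdiff (μ := μ) (s := C) hA0
      have hup' : μ.real (C ∩ A (t + 1)) ≤ u * μ.real (B ∩ G t) := hup.trans (mul_le_mul_of_nonneg_left hCl hu0)
      have hlow' : μ.real (C \ A (t + 1)) ≤ (1 - l) * μ.real (B ∩ G t) := by
        have h7 := mul_le_mul_of_nonneg_left hCl hq
        linarith
      have hCA : MeasurableSet[ℱ (t + 1)] (C ∩ A (t + 1)) := (ℱ.mono (by omega) _ hCm).inter (hA (t + 1))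
      have hCB : MeasurableSet[ℱ (t + 1)] (C \ A (t + 1)) := (ℱ.mono (by omega) _ hCm).diff (hA (t + 1))
      have s3 : (X ∩ G t) \ A (t + 1) ⊆ (C \ A (t + 1)) ∩ EQ A G V (t + 1) j (m₁ - 1) m r := by
        rintro ω ⟨⟨⟨h1, ⟨h2, h3, h3'⟩, h4⟩, h5⟩, h6⟩
        rw [SG_succ, if_neg (fun h => h6 h.2), add_zero] at h2
        rw [cG_succ, if_pos h5] at h3 h3'
        exact ⟨⟨⟨⟨h1, h5⟩, fun h => h4 (vG_succ.2 (Or.inl ⟨h5, h⟩))⟩, h6⟩, ⟨h2, by omega, by omega⟩,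
          fun h => h4 (vG_succ.2 (Or.inr h))⟩
      have i3 : μ.real ((X ∩ G t) \ A (t + 1)) ≤ be l u (m₁ - 1) m r * ((1 - l) * μ.real (B ∩ G t)) :=
        (measureReal_mono s3).trans ((ih _ _ _ _ hCB).trans
          (mul_le_mul_of_nonneg_left hlow' (be_nonneg hl1 hu0 _ _ _)))
      have hBG : 0 ≤ μ.real (B ∩ G t) := measureReal_nonneg
      rcases Nat.eq_zero_or_pos r with hr | hr
      · subst hr
        have e : (X ∩ G t) ∩ A (t + 1) = ∅ := by
          rw [eq_empty_iff_forall_notMem]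
          rintro ω ⟨⟨⟨_, ⟨h2, _, _⟩, _⟩, h5⟩, h6⟩
          rw [SG_succ, if_pos ⟨h5, h6⟩] at h2
          omega
        rw [e, measureReal_empty, zero_add] at e4
        rw [← e4]
        refine i3.trans ?_
        have := mul_le_mul_of_nonneg_right (be_zero (u := u) hl0 hl1 m₁ m) hBG
        linarith
      · obtain ⟨r', rfl⟩ : ∃ r', r = r' + 1 := ⟨r - 1, by omega⟩
        have s4 : (X ∩ G t) ∩ A (t + 1) ⊆ (C ∩ A (t + 1)) ∩ EQ A G V (t + 1) j (m₁ - 1) m r' := by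
          rintro ω ⟨⟨⟨h1, ⟨h2, h3, h3'⟩, h4⟩, h5⟩, h6⟩
          rw [SG_succ, if_pos ⟨h5, h6⟩] at h2
          rw [cG_succ, if_pos h5] at h3 h3'
          exact ⟨⟨⟨⟨h1, h5⟩, fun h => h4 (vG_succ.2 (Or.inl ⟨h5, h⟩))⟩, h6⟩, ⟨by omega, by omega, by omega⟩,
            fun h => h4 (vG_succ.2 (Or.inr h))⟩
        have i4 : μ.real ((X ∩ G t) ∩ A (t + 1)) ≤ be l u (m₁ - 1) m r' * (u * μ.real (B ∩ G t)) :=
          (measureReal_mono s4).trans ((ih _ _ _ _ hCA).trans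
            (mul_le_mul_of_nonneg_left hup' (be_nonneg hl1 hu0 _ _ _)))
        have := mul_le_mul_of_nonneg_right (be_succ hl0 hl1 hu0 m₁ m r') hBG
        rw [← e4]
        linarith
    rw [← e1, ← e2, mul_add]
    exact add_le_add i5 i2

theorem trial_tl (hA : ∀ n, MeasurableSet[ℱ n] (A n)) (hG : ∀ n, MeasurableSet[ℱ n] (G n))
    (hV : ∀ n, MeasurableSet[ℱ n] (V n)) {u : ℝ} (hu0 : 0 ≤ u) (j : ℕ) :
    ∀ t : ℕ, (∀ n, t ≤ n → n < t + j → ∀ ω, ω ∉ V n → dens μ ℱ A n ω ≤ u) →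
      ∀ (m₂ r : ℕ) (B : Set Ω), MeasurableSet[ℱ t] B →
      μ.real (B ∩ TL A G V t j m₂ r) ≤ (m₂.choose r : ℝ) * u ^ r * μ.real B := by
  classical
  induction j with
  | zero =>
    intro t _ m₂ r B _
    rcases Nat.eq_zero_or_pos r with h | h
    · subst h
      simp only [Nat.choose_zero_right, Nat.cast_one, pow_zero, one_mul]
      exact measureReal_mono inter_subset_left
    · have e : B ∩ TL A G V t 0 m₂ r = ∅ := by
        rw [eq_empty_iff_forall_notMem]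
        rintro ω ⟨_, ⟨h1, h2⟩, _⟩
        rw [SG_zero] at h1
        omega
      rw [e, measureReal_empty]
      positivity
  | succ j ih =>
    intro t hu m₂ r B hB
    rcases Nat.eq_zero_or_pos r with hr | hr
    · subst hr
      simp only [Nat.choose_zero_right, Nat.cast_one, pow_zero, one_mul]
      exact measureReal_mono inter_subset_left
    obtain ⟨r', rfl⟩ : ∃ r', r = r' + 1 := ⟨r - 1, by omega⟩
    have ih := ih (t + 1) (fun n h1 h2 => hu n (by omega) (by omega))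
    have hG0 : MeasurableSet (G t) := ℱ.le _ _ (hG t)
    have hA0 : MeasurableSet (A (t + 1)) := ℱ.le _ _ (hA (t + 1))
    set X : Set Ω := B ∩ TL A G V t (j + 1) m₂ (r' + 1) with hX
    have e1 := measureReal_inter_add_sdiff (μ := μ) (s := X) hG0
    have e2 := measureReal_inter_add_sdiff (μ := μ) (s := B) hG0
    have e4 := measureReal_inter_add_sdiff (μ := μ) (s := X ∩ G t) hA0
    have hB1 : MeasurableSet[ℱ (t + 1)] (B \ G t) := ℱ.mono (by omega) _ (hB.diff (hG t))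
    have i1 := ih m₂ (r' + 1) _ hB1
    have s1 : X \ G t ⊆ (B \ G t) ∩ TL A G V (t + 1) j m₂ (r' + 1) := by
      rintro ω ⟨⟨h1, ⟨h2, h3⟩, h4⟩, h5⟩
      rw [SG_succ, if_neg (fun h => h5 h.1), add_zero] at h2
      rw [cG_succ, if_neg h5, add_zero] at h3
      exact ⟨⟨h1, h5⟩, ⟨h2, h3⟩, fun h => h4 (vG_succ.2 (Or.inr h))⟩
    have i2 : μ.real (X \ G t) ≤ (m₂.choose (r' + 1) : ℝ) * u ^ (r' + 1) * μ.real (B \ G t) := (measureReal_mono s1).trans i1
    have i5 : μ.real (X ∩ G t) ≤ (m₂.choose (r' + 1) : ℝ) * u ^ (r' + 1) * μ.real (B ∩ G t) := by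
      rcases Nat.eq_zero_or_pos m₂ with hm | hm
      · have e : X ∩ G t = ∅ := by
          rw [eq_empty_iff_forall_notMem]
          rintro ω ⟨⟨_, ⟨_, h3⟩, _⟩, h5⟩
          rw [cG_succ, if_pos h5] at h3
          omega
        rw [e, measureReal_empty]
        positivity
      obtain ⟨m, rfl⟩ : ∃ m, m₂ = m + 1 := ⟨m₂ - 1, by omega⟩
      set C : Set Ω := (B ∩ G t) \ V t with hC
      have hCm : MeasurableSet[ℱ t] C := (hB.inter (hG t)).diff (hV t)
      have hCl : μ.real C ≤ μ.real (B ∩ G t) := measureReal_mono sdiff_subset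
      have hup := upper_meas (μ := μ) hA t hCm (u := u) (fun ω hω => hu t le_rfl (by omega) ω hω.2)
      have hup' : μ.real (C ∩ A (t + 1)) ≤ u * μ.real (B ∩ G t) := hup.trans (mul_le_mul_of_nonneg_left hCl hu0)
      have hlow' : μ.real (C \ A (t + 1)) ≤ μ.real (B ∩ G t) := (measureReal_mono sdiff_subset).trans hCl
      have hCA : MeasurableSet[ℱ (t + 1)] (C ∩ A (t + 1)) := (ℱ.mono (by omega) _ hCm).inter (hA (t + 1))
      have hCB : MeasurableSet[ℱ (t + 1)] (C \ A (t + 1)) := (ℱ.mono (by omega) _ hCm).diff (hA (t + 1))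
      have s3 : (X ∩ G t) \ A (t + 1) ⊆ (C \ A (t + 1)) ∩ TL A G V (t + 1) j m (r' + 1) := by
        rintro ω ⟨⟨⟨h1, ⟨h2, h3⟩, h4⟩, h5⟩, h6⟩
        rw [SG_succ, if_neg (fun h => h6 h.2), add_zero] at h2
        rw [cG_succ, if_pos h5] at h3
        exact ⟨⟨⟨⟨h1, h5⟩, fun h => h4 (vG_succ.2 (Or.inl ⟨h5, h⟩))⟩, h6⟩, ⟨h2, by omega⟩,
          fun h => h4 (vG_succ.2 (Or.inr h))⟩
      have i3 : μ.real ((X ∩ G t) \ A (t + 1)) ≤ (m.choose (r' + 1) : ℝ) * u ^ (r' + 1) * μ.real (B ∩ G t) :=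
        (measureReal_mono s3).trans ((ih _ _ _ hCB).trans (mul_le_mul_of_nonneg_left hlow' (by positivity)))
      have s4 : (X ∩ G t) ∩ A (t + 1) ⊆ (C ∩ A (t + 1)) ∩ TL A G V (t + 1) j m r' := by
        rintro ω ⟨⟨⟨h1, ⟨h2, h3⟩, h4⟩, h5⟩, h6⟩
        rw [SG_succ, if_pos ⟨h5, h6⟩] at h2
        rw [cG_succ, if_pos h5] at h3
        exact ⟨⟨⟨⟨h1, h5⟩, fun h => h4 (vG_succ.2 (Or.inl ⟨h5, h⟩))⟩, h6⟩, ⟨by omega, by omega⟩,
          fun h => h4 (vG_succ.2 (Or.inr h))⟩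
      have i4 : μ.real ((X ∩ G t) ∩ A (t + 1)) ≤ (m.choose r' : ℝ) * u ^ r' * (u * μ.real (B ∩ G t)) :=
        (measureReal_mono s4).trans ((ih _ _ _ hCA).trans (mul_le_mul_of_nonneg_left hup' (by positivity)))
      have h2 : (((m + 1).choose (r' + 1) : ℕ) : ℝ) = (m.choose r' : ℝ) + (m.choose (r' + 1) : ℝ) := by
        rw [Nat.choose_succ_succ]
        push_cast
        ring
      rw [← e4, h2]
      refine (add_le_add i4 i3).trans (le_of_eq ?_)
      ring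
    rw [← e1, ← e2, mul_add]
    exact add_le_add i5 i2

end Pool.Agent.N315.PL
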