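import Mathlib
import Pool.Agent.N315.PL.Most
import Pool.Agent.N315.PL.Lln
import Pool.Agent.N315.PL.Tri
import Pool.Agent.N315.CC.Up

/-!
# The numbers of chains in short windows
-/

set_option autoImplicit false
set_option linter.unusedSectionVars false

open MeasureTheory Filter Set
open scoped ENNReal Topology

namespace Pool.Agent.N315.PL

open Pool.Agent.R528.RM Pool.Agent.N740.HK Pool.Agent.N315.CC

variable {Ω : Type} {m0 : MeasurableSpace Ω} {μ : Measure Ω} [IsProbabilityMeasure μ]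
  {ℱ : Filtration ℕ m0} {A : ℕ → Set Ω} {φ : ℕ → ℕ} {L : ℕ → ℕ} {d lam : ℝ}

/-- the sums of the densities -/
lemma S_lim (hφ : StrictMono φ) (hφ1 : ∀ z, z < φ z) (hd0 : 0 < d)
    (hlog : Tendsto (fun z : ℕ => Real.log (φ z : ℕ) / Real.log z) atTop (𝓝 d)) {m : ℕ}
    (hL : Tendsto (fun x : ℕ => (L x : ℝ) / Real.log x ^ m) atTop (𝓝 lam)) (i : ℕ) {e : ℕ} {c : ℝ}
    {ω : Ω} (h1 : Tendsto (fun x : ℕ => (NN A φ L i x ω : ℝ) / Real.log x ^ (e + 1)) atTop (𝓝 c)) :
    Tendsto (fun x : ℕ => (∑ t ∈ Finset.range (φ^[i] (x + L x)), (GW A φ L i x t).indicator (fun _ => (1 : ℝ)) ω / Real.log t) /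
      Real.log x ^ e) atTop (𝓝 (c / d ^ i)) := by
  have hM : ∀ x : ℕ, 2 ≤ x → 0 < Real.log (φ^[i] x : ℕ) := by
    intro x hx
    have h3 := it_ge hφ1 i x
    have h4 : (2 : ℝ) ≤ (φ^[i] x : ℝ) := by exact_mod_cast (by omega : 2 ≤ φ^[i] x)
    exact Real.log_pos (by linarith)
  have g1 : Tendsto (fun x : ℕ => ((NN A φ L i x ω : ℝ) / Real.log x ^ (e + 1)) / (Real.log (φ^[i] (x + L x) : ℕ) / Real.log x))
      atTop (𝓝 (c / d ^ i)) := h1.div (log_it_shift hφ1 hlog hL i) (by positivity)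
  have g2 : Tendsto (fun x : ℕ => ((NN A φ L i x ω : ℝ) / Real.log x ^ (e + 1)) / (Real.log (φ^[i] x : ℕ) / Real.log x))
      atTop (𝓝 (c / d ^ i)) := h1.div (log_it hφ1 hlog i) (by positivity)
  refine tendsto_of_tendsto_of_tendsto_of_le_of_le' g1 g2 ?_ ?_
  · filter_upwards [log_pos_ev, eventually_ge_atTop 2] with x hx hx2
    have h3 := (sum_log (A := A) (L := L) hφ hφ1 i x hx2 ω).1
    rw [frac_aux hx.ne' (hM (x + L x) (by omega)).ne']
    exact div_le_div_of_nonneg_right h3 (by positivity)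
  · filter_upwards [log_pos_ev, eventually_ge_atTop 2] with x hx hx2
    have h3 := (sum_log (A := A) (L := L) hφ hφ1 i x hx2 ω).2
    rw [frac_aux hx.ne' (hM x hx2).ne']
    exact div_le_div_of_nonneg_right h3 (by positivity)

lemma NN_zero (x : ℕ) (ω : Ω) : NN A φ L 0 x ω = L x := by
  classical
  unfold NN
  rw [Finset.filter_true_of_mem (fun n _ => by
    intro j hj
    omega), Nat.card_Ioc]
  omega

/-- the number of the candidates, in most windows -/
theorem most_NN (hA : ∀ n, MeasurableSet[ℱ n] (A n))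
    (hd : ∀ᵐ ω ∂μ, Tendsto (fun n : ℕ => dens μ ℱ A n ω * Real.log n) atTop (𝓝 1))
    (hφ : StrictMono φ) (hφ1 : ∀ z, z < φ z) (hd0 : 0 < d)
    (hlog : Tendsto (fun z : ℕ => Real.log (φ z : ℕ) / Real.log z) atTop (𝓝 d)) (i : ℕ) (hlam : 0 ≤ lam)
    (hL : Tendsto (fun x : ℕ => (L x : ℝ) / Real.log x ^ (i + 1)) atTop (𝓝 lam)) :
    ∀ᵐ ω ∂μ, ∀ ε : ℝ, 0 < ε →
      UB {x | ¬ |(NN A φ L i x ω : ℝ) - lam / d ^ tri i * Real.log x| ≤ ε * Real.log x} 0 := by
  rcases i with _ | i
  · refine Eventually.of_forall fun ω ε hε => UB_of_eventually ?_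
    filter_upwards [hL.eventually (Metric.ball_mem_nhds lam hε), log_pos_ev] with x hx h0 hcon
    apply hcon
    rw [NN_zero]
    have hx : dist ((L x : ℝ) / Real.log x ^ (0 + 1)) lam < ε := hx
    rw [Real.dist_eq, zero_add, pow_one] at hx
    have e : (L x : ℝ) - lam / d ^ tri 0 * Real.log x = ((L x : ℝ) / Real.log x - lam) * Real.log x := by
      simp only [tri, Finset.range_zero, Finset.sum_empty, pow_zero, div_one]
      field_simp
    rw [e, abs_mul, abs_of_pos h0]
    exact mul_le_mul_of_nonneg_right hx.le h0.le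
  · have h0 := conc_most (μ := μ) hA hd (fun n t => (GW A φ L i n t).indicator (fun _ => (1 : ℝ))) (fun n => φ^[i] (n + L n))
      (fun n t => (@stronglyMeasurable_const _ _ (ℱ t) _ _).indicator (GW_meas hA hφ1 i n t))
      (fun n t ω => by
        by_cases h : ω ∈ GW A φ L i n t
        · rw [indicator_of_mem h]; norm_num
        · rw [indicator_of_notMem h]; norm_num)
    filter_upwards [h0, law (μ := μ) hA hd hφ hφ1 hd0 hlog (i + 1) hlam hL] with ω h1 h2 ε hε
    have h3 := h2 i le_rfl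
    rw [show i + 1 + 1 - i = 1 + 1 by omega] at h3
    have h4 := S_lim hφ hφ1 hd0 hlog hL i h3
    set S : ℕ → ℝ := fun x => ∑ t ∈ Finset.range (φ^[i] (x + L x)), (GW A φ L i x t).indicator (fun _ => (1 : ℝ)) ω / Real.log t with hS
    set c : ℝ := lam / d ^ tri (i + 1) with hc
    have hc0 : 0 ≤ c := by positivity
    have ec : lam / d ^ tri i / d ^ i = c := by rw [hc, tri_succ, pow_add, div_div]
    rw [ec] at h4
    have h4 : Tendsto (fun x : ℕ => S x / Real.log x ^ 1) atTop (𝓝 c) := h4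
    set η : ℝ := ε / (2 * (c + 3)) with hη
    have hη0 : 0 < η := by positivity
    set η' : ℝ := min η 1 with hη'
    have hη'0 : 0 < η' := lt_min hη0 one_pos
    have h5 := h4.eventually (Metric.ball_mem_nhds c hη'0)
    refine (h1 η' hη'0).of_dz (UB_of_eventually (E := {x : ℕ | ¬ |S x - c * Real.log x| ≤ η' * Real.log x}) ?_) ?_
    · filter_upwards [h5, log_pos_ev] with x hx hx0 hcon
      apply hcon
      have hx : dist (S x / Real.log x ^ 1) c < η' := hx
      rw [Real.dist_eq, pow_one] at hx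
      have e : S x - c * Real.log x = (S x / Real.log x - c) * Real.log x := by
        field_simp
      rw [e, abs_mul, abs_of_pos hx0]
      exact mul_le_mul_of_nonneg_right hx.le hx0.le
    · intro x hx
      by_contra hcon
      rw [mem_union, not_or] at hcon
      apply hx
      have h6 := not_not.1 hcon.1
      have h7 : |S x - c * Real.log x| ≤ η' * Real.log x := not_not.1 hcon.2
      have h8 := sum_J (A := A) (L := L) hφ hφ1 i x ω
      rw [h8] at h6
      have h6 : |(NN A φ L (i + 1) x ω : ℝ) - S x| ≤ η' * S x + η' * Real.log x := h6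
      have hl : 0 ≤ Real.log x := Real.log_natCast_nonneg x
      have h9 : S x ≤ (c + 1) * Real.log x := by
        have h10 := (abs_le.1 h7).2
        have h11 : η' * Real.log x ≤ 1 * Real.log x := mul_le_mul_of_nonneg_right (min_le_right _ _) hl
        linarith
      have h10 : η' * S x ≤ η' * ((c + 1) * Real.log x) := mul_le_mul_of_nonneg_left h9 hη'0.le
      have h11 : |(NN A φ L (i + 1) x ω : ℝ) - c * Real.log x| ≤
          |(NN A φ L (i + 1) x ω : ℝ) - S x| + |S x - c * Real.log x| := abs_sub_le _ _ _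
      have h12 : η' * (c + 3) ≤ ε := by
        have : η' * (c + 3) ≤ η * (c + 3) := mul_le_mul_of_nonneg_right (min_le_left _ _) (by linarith)
        refine this.trans ?_
        rw [hη, div_mul_eq_mul_div, div_le_iff₀ (by positivity)]
        nlinarith
      have h13 : η' * (c + 3) * Real.log x ≤ ε * Real.log x := mul_le_mul_of_nonneg_right h12 hl
      refine h11.trans ((add_le_add h6 h7).trans ?_)
      linarith

/-- the number of successes -/
lemma SG_GW (hφ : StrictMono φ) (hφ1 : ∀ z, z < φ z) (i x : ℕ) (ω : Ω) :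
    SG A (GW A φ L i x) (φ^[i] x) (φ^[i] (x + L x) - φ^[i] x) ω = NN A φ L (i + 1) x ω := by
  classical
  have h1 : φ^[i] x ≤ φ^[i] (x + L x) := (hφ.iterate i).monotone (by omega)
  have h2 := sum_GW (A := A) (L := L) (M := ℕ) hφ hφ1 i x ω (Finset.Ico (φ^[i] x) (φ^[i] (x + L x))) (fun n hn1 hn2 => by
    rw [Finset.mem_Ico]
    have h3 : φ^[i] x < φ^[i] n := (hφ.iterate i) hn1
    have h4 : φ^[i] n ≤ φ^[i] (x + L x) := (hφ.iterate i).monotone hn2
    omega) (fun t => if ω ∈ A (t + 1) then 1 else 0)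
  rw [Finset.sum_Ico_eq_sum_range] at h2
  have h3 : SG A (GW A φ L i x) (φ^[i] x) (φ^[i] (x + L x) - φ^[i] x) ω =
      ∑ r ∈ Finset.range (φ^[i] (x + L x) - φ^[i] x), (if ω ∈ GW A φ L i x (φ^[i] x + r) then
        (if ω ∈ A (φ^[i] x + r + 1) then 1 else 0) else 0) := by
    unfold SG
    refine Finset.sum_congr rfl fun r _ => ?_
    by_cases g1 : ω ∈ GW A φ L i x (φ^[i] x + r)
    · by_cases g2 : ω ∈ A (φ^[i] x + r + 1)
      · rw [if_pos ⟨g1, g2⟩, if_pos g1, if_pos g2]
      · rw [if_neg (fun h => g2 h.2), if_pos g1, if_neg g2]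
    · rw [if_neg (fun h => g1 h.1), if_neg g1]
  rw [h3, h2]
  unfold NN
  have h4 : (Finset.Ioc x (x + L x)).filter (fun n => ω ∈ chn A φ (i + 1) n) =
      ((Finset.Ioc x (x + L x)).filter (fun n => ω ∈ chn A φ i n)).filter (fun n => ω ∈ A (φ^[i] n)) := by
    rw [Finset.filter_filter]
    refine Finset.filter_congr fun n _ => chn_succ
  rw [h4, Finset.card_filter]
  refine Finset.sum_congr rfl fun n hn => ?_
  have hn := Finset.mem_Ioc.1 (Finset.mem_filter.1 hn).1
  have h5 := it_ge hφ1 i n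
  rw [show φ^[i] n - 1 + 1 = φ^[i] n by omega]

lemma LL_mono {m : ℕ} (hlam : 0 ≤ lam) (hm : m ≠ 0) : Monotone (LL lam m) := by
  intro a b hab
  refine Nat.floor_mono (mul_le_mul_of_nonneg_left (pow_le_pow_left₀ (Real.log_natCast_nonneg a) ?_ m) hlam)
  rcases Nat.eq_zero_or_pos a with h | h
  · subst h
    rw [Nat.cast_zero, Real.log_zero]
    exact Real.log_natCast_nonneg b
  · exact Real.log_le_log (by exact_mod_cast h) (by exact_mod_cast hab)

lemma LL_sqrt (m : ℕ) (hlam : 0 ≤ lam) : ∀ᶠ X : ℕ in atTop, ((LL lam m X + 1 : ℕ) : ℝ) ≤ Real.sqrt X := by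
  have h1 : ∀ᶠ x : ℝ in atTop, lam * Real.log x ^ m + 1 ≤ Real.sqrt x := by
    have h2 := (isLittleO_log_rpow_rpow_atTop (s := 1 / 2) (m : ℝ) (by norm_num)).def
      (show (0 : ℝ) < 1 / (2 * (lam + 1)) by positivity)
    filter_upwards [h2, eventually_gt_atTop 1, Real.tendsto_sqrt_atTop.eventually_ge_atTop 2] with x hx hx0 hx2
    have hl : 0 ≤ Real.log x := Real.log_nonneg hx0.le
    rw [Real.norm_of_nonneg (by positivity), Real.norm_of_nonneg (by positivity), Real.rpow_natCast, ← Real.sqrt_eq_rpow] at hx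
    have h4 : lam * Real.log x ^ m ≤ Real.sqrt x / 2 := by
      calc lam * Real.log x ^ m ≤ (lam + 1) * Real.log x ^ m := mul_le_mul_of_nonneg_right (by linarith) (by positivity)
        _ ≤ (lam + 1) * (1 / (2 * (lam + 1)) * Real.sqrt x) := mul_le_mul_of_nonneg_left hx (by positivity)
        _ = _ := by field_simp
    linarith
  filter_upwards [tendsto_natCast_atTop_atTop.eventually h1] with X hX
  have h3 : (LL lam m X : ℝ) ≤ lam * Real.log X ^ m :=
    Nat.floor_le (mul_nonneg hlam (pow_nonneg (Real.log_natCast_nonneg _) _))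
  push_cast
  linarith

end Pool.Agent.N315.PL
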