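import Mathlib
import Pool.Agent.N315.PL.Pois

/-!
# The Poisson bounds
-/

set_option autoImplicit false
set_option linter.unusedSectionVars false

open MeasureTheory Filter Set
open scoped ENNReal Topology

namespace Pool.Agent.N315.PL

open Pool.Agent.R528.RM Pool.Agent.N740.HK Pool.Agent.N315.CC

variable {Ω : Type} {m0 : MeasurableSpace Ω} {μ : Measure Ω} [IsProbabilityMeasure μ]
  {ℱ : Filtration ℕ m0} {A : ℕ → Set Ω} {φ : ℕ → ℕ} {L : ℕ → ℕ} {d lam : ℝ}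

lemma ch_le {u P₁ : ℝ} {m₂ r : ℕ} (hu : 0 ≤ u) (h1 : m₂ * u ≤ P₁) :
    (m₂.choose r : ℝ) * u ^ r ≤ P₁ ^ r / (r.factorial : ℝ) := by
  have h2 : (m₂.choose r : ℝ) ≤ (m₂ : ℝ) ^ r / (r.factorial : ℝ) := Nat.choose_le_pow_div r m₂
  calc (m₂.choose r : ℝ) * u ^ r ≤ (m₂ : ℝ) ^ r / (r.factorial : ℝ) * u ^ r := mul_le_mul_of_nonneg_right h2 (by positivity)
    _ = (m₂ * u) ^ r / (r.factorial : ℝ) := by rw [mul_pow]; ring
    _ ≤ _ := div_le_div_of_nonneg_right (pow_le_pow_left₀ (by positivity) h1 r) (by positivity)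

lemma be_le {l u P₁ P₂ : ℝ} {m₁ m₂ r : ℕ} (hl0 : 0 ≤ l) (hl1 : l ≤ 1) (hu : 0 ≤ u) (h1 : m₂ * u ≤ P₁) (h2 : P₂ ≤ m₁ * l) :
    be l u m₁ m₂ r ≤ P₁ ^ r / (r.factorial : ℝ) * Real.exp (-P₂ + r * l) := by
  unfold be
  have hP : 0 ≤ P₁ := le_trans (by positivity) h1
  refine mul_le_mul (ch_le hu h1) ?_ (pow_nonneg (by linarith) _) (by positivity)
  have h3 : 1 - l ≤ Real.exp (-l) := by
    have := Real.add_one_le_exp (-l)
    linarith
  refine (pow_le_pow_left₀ (by linarith) h3 _).trans ?_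
  rw [← Real.exp_nat_mul]
  apply Real.exp_le_exp.2
  have h4 : (m₁ : ℝ) ≤ ((m₁ - r : ℕ) : ℝ) + r := by exact_mod_cast (by omega : m₁ ≤ (m₁ - r) + r)
  nlinarith

/-- the bounds for the densities in the windows -/
lemma win_facts (hφ : StrictMono φ) (hφ1 : ∀ z, z < φ z) {δ : ℝ} (hδ0 : 0 ≤ δ) (hδ1 : δ ≤ 1) (i : ℕ) :
    ∀ x : ℕ, 3 ≤ x → ∀ n, φ^[i] x ≤ n → n < φ^[i] x + (φ^[i] (x + L x) - φ^[i] x) → ∀ ω, ω ∉ VF μ ℱ A δ n →
      (1 - δ) / Real.log (φ^[i] (x + L x) : ℕ) ≤ dens μ ℱ A n ω ∧ dens μ ℱ A n ω ≤ (1 + δ) / Real.log (φ^[i] x : ℕ) := by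
  intro x hx n hn1 hn2 ω hω
  have h1 : φ^[i] x ≤ φ^[i] (x + L x) := (hφ.iterate i).monotone (by omega)
  have h2 := it_ge hφ1 i x
  have h3 : (3 : ℝ) ≤ (φ^[i] x : ℕ) := by exact_mod_cast hx.trans h2
  have h4 : ((φ^[i] x : ℕ) : ℝ) ≤ n := by exact_mod_cast hn1
  have h5 : (n : ℝ) ≤ (φ^[i] (x + L x) : ℕ) := by exact_mod_cast (by omega : n ≤ φ^[i] (x + L x))
  have h6 : 0 < Real.log (φ^[i] x : ℕ) := Real.log_pos (by linarith)
  have h7 : Real.log (φ^[i] x : ℕ) ≤ Real.log n := Real.log_le_log (by linarith) h4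
  have h8 : Real.log n ≤ Real.log (φ^[i] (x + L x) : ℕ) := Real.log_le_log (by linarith) h5
  have h9 := VF_b (lt_of_lt_of_le h6 h7) hω
  exact ⟨(div_le_div_of_nonneg_left (by linarith) (by linarith) h8).trans h9.1,
    h9.2.trans (div_le_div_of_nonneg_left (by linarith) h6 h7)⟩

variable (μ ℱ A φ) in
/-- the parameters of the windows -/
noncomputable def WL (d lam : ℝ) (i : ℕ) : ℕ → ℕ := LL (lam * d ^ tri (i + 1)) (i + 1)

lemma WL_lim (hd0 : 0 < d) (hlam : 0 < lam) (i : ℕ) :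
    Tendsto (fun x : ℕ => (WL d lam i x : ℝ) / Real.log x ^ (i + 1)) atTop (𝓝 (lam * d ^ tri (i + 1))) :=
  LL_lim (by positivity) (by omega)

lemma P_lim (hφ1 : ∀ z, z < φ z) (hd0 : 0 < d)
    (hlog : Tendsto (fun z : ℕ => Real.log (φ z : ℕ) / Real.log z) atTop (𝓝 d)) (i : ℕ) (hlam : 0 < lam) (δ : ℝ) :
    Tendsto (fun x : ℕ => (1 + δ) * (lam * d ^ i) * Real.log x * ((1 + δ) / Real.log (φ^[i] x : ℕ))) atTop (𝓝 ((1 + δ) ^ 2 * lam)) ∧
    Tendsto (fun x : ℕ => (1 - δ) * (lam * d ^ i) * Real.log x * ((1 - δ) / Real.log (φ^[i] (x + WL d lam i x) : ℕ))) atTop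
      (𝓝 ((1 - δ) ^ 2 * lam)) ∧
    Tendsto (fun x : ℕ => (1 - δ) / Real.log (φ^[i] (x + WL d lam i x) : ℕ)) atTop (𝓝 0) := by
  have hdi : 0 < d ^ i := by positivity
  refine ⟨?_, ?_, ?_⟩
  · have h1 := (tendsto_const_nhds (x := (1 + δ) ^ 2 * (lam * d ^ i))).div (log_it hφ1 hlog i) hdi.ne'
    have e : (1 + δ) ^ 2 * (lam * d ^ i) / d ^ i = (1 + δ) ^ 2 * lam := by field_simp
    rw [e] at h1
    refine h1.congr' ?_
    filter_upwards [log_pos_ev, (it_tendsto hφ1 i).eventually log_pos_ev] with x hx hx2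
    have hx2 : 0 < Real.log (φ^[i] x : ℕ) := hx2
    simp only [Pi.div_apply]
    field_simp
  · have h1 := (tendsto_const_nhds (x := (1 - δ) ^ 2 * (lam * d ^ i))).div
      (log_it_shift hφ1 hlog (WL_lim hd0 hlam i) i) hdi.ne'
    have e : (1 - δ) ^ 2 * (lam * d ^ i) / d ^ i = (1 - δ) ^ 2 * lam := by field_simp
    rw [e] at h1
    refine h1.congr' ?_
    filter_upwards [log_pos_ev, ((it_tendsto hφ1 i).comp (shift_tendsto (L := WL d lam i))).eventually log_pos_ev] with x hx hx2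
    have hx2 : 0 < Real.log (φ^[i] (x + WL d lam i x) : ℕ) := hx2
    simp only [Pi.div_apply]
    field_simp
  · refine tendsto_const_nhds.div_atTop ?_
    exact tendsto_logN.comp ((it_tendsto hφ1 i).comp (shift_tendsto (L := WL d lam i)))

section

variable (μ ℱ A φ) in
/-- exactly `r` successes -/
def DE (d lam δ : ℝ) (i r x : ℕ) : Set Ω :=
  EQ A (GW A φ (WL d lam i) i x) (VF μ ℱ A δ) (φ^[i] x) (φ^[i] (x + WL d lam i x) - φ^[i] x)
    ⌈(1 - δ) * (lam * d ^ i) * Real.log x⌉₊ ⌊(1 + δ) * (lam * d ^ i) * Real.log x⌋₊ r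

variable (μ ℱ A φ) in
/-- at least `r` successes -/
def DT (d lam δ : ℝ) (i r x : ℕ) : Set Ω :=
  TL A (GW A φ (WL d lam i) i x) (VF μ ℱ A δ) (φ^[i] x) (φ^[i] (x + WL d lam i x) - φ^[i] x)
    ⌊(1 + δ) * (lam * d ^ i) * Real.log x⌋₊ r

end

lemma meas_aux (hφ : StrictMono φ) (hd0 : 0 < d) (hlam : 0 < lam) (i X x : ℕ) (hx : x < X) :
    φ^[i] x + (φ^[i] (x + WL d lam i x) - φ^[i] x) ≤ φ^[i] (x + (WL d lam i X + 1)) := by
  have h1 : φ^[i] x ≤ φ^[i] (x + WL d lam i x) := (hφ.iterate i).monotone (by omega)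
  have h2 : WL d lam i x ≤ WL d lam i X := LL_mono (by positivity) (by omega) hx.le
  have h3 : φ^[i] (x + WL d lam i x) ≤ φ^[i] (x + (WL d lam i X + 1)) := (hφ.iterate i).monotone (by omega)
  omega

theorem UB_DE (hA : ∀ n, MeasurableSet[ℱ n] (A n))
    (hφ : StrictMono φ) (hφ1 : ∀ z, z < φ z) (hd0 : 0 < d)
    (hlog : Tendsto (fun z : ℕ => Real.log (φ z : ℕ) / Real.log z) atTop (𝓝 d)) (i : ℕ) (hlam : 0 < lam)
    {δ : ℝ} (hδ0 : 0 < δ) (hδ1 : δ ≤ 1 / 2) (r : ℕ) :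
    ∀ᵐ ω ∂μ, UB {x | ω ∈ DE μ ℱ A φ d lam δ i r x}
      (((1 + δ) ^ 2 * lam) ^ r / (r.factorial : ℝ) * Real.exp (-((1 - δ) ^ 2 * lam)) + δ) := by
  obtain ⟨l1, l2, l3⟩ := P_lim hφ1 hd0 hlog i hlam δ
  have hlim := ((l1.pow r).div_const (r.factorial : ℝ)).mul
    ((Real.continuous_exp.tendsto _).comp (l2.neg.add (l3.const_mul (r : ℝ))))
  rw [mul_zero, add_zero] at hlim
  refine lln (μ := μ) (ℱ := ℱ) (t := fun x => φ^[i] x) (R := fun X => WL d lam i X + 1) (hφ.iterate i).monotone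
    (fun X => Nat.succ_pos _) (LL_sqrt _ (by positivity)) ?_ (by positivity) ?_
  · intro X x hx
    exact ℱ.mono (meas_aux hφ hd0 hlam i X x hx) _ (EQ_meas hA (fun t => GW_meas hA hφ1 i x t) (fun n => VF_meas δ n) _ _ _ _ _)
  · filter_upwards [hlim.eventually_lt_const (lt_add_of_pos_right _ hδ0), eventually_ge_atTop 3] with x hx hx3 B hB
    have hx0 : x ≤ φ^[i] x := it_ge hφ1 i x
    have hx0' : x ≤ φ^[i] (x + WL d lam i x) := by
      have := it_ge hφ1 i (x + WL d lam i x)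
      omega
    have hx3' : (3 : ℝ) ≤ x := by exact_mod_cast hx3
    have hlx : 1 ≤ Real.log x := by
      rw [Real.le_log_iff_exp_le (by linarith)]
      have := Real.exp_one_lt_d9
      linarith
    have hM1 : 1 ≤ Real.log (φ^[i] x : ℕ) := hlx.trans (Real.log_le_log (by linarith) (by exact_mod_cast hx0))
    have hM2 : 1 ≤ Real.log (φ^[i] (x + WL d lam i x) : ℕ) := hlx.trans (Real.log_le_log (by linarith) (by exact_mod_cast hx0'))
    have hl0 : 0 ≤ (1 - δ) / Real.log (φ^[i] (x + WL d lam i x) : ℕ) := div_nonneg (by linarith) (by linarith)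
    have hl1 : (1 - δ) / Real.log (φ^[i] (x + WL d lam i x) : ℕ) ≤ 1 := by
      rw [div_le_one (by linarith)]
      linarith
    have hu0 : 0 ≤ (1 + δ) / Real.log (φ^[i] x : ℕ) := div_nonneg (by linarith) (by linarith)
    have h1 := trial_eq (μ := μ) (ℱ := ℱ) hA (fun t => GW_meas (L := WL d lam i) hA hφ1 i x t) (fun n => VF_meas (A := A) δ n) hl0 hl1 hu0
      (φ^[i] (x + WL d lam i x) - φ^[i] x) (φ^[i] x)
      (win_facts (μ := μ) (ℱ := ℱ) (A := A) (L := WL d lam i) hφ hφ1 hδ0.le (by linarith) i x hx3)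
      ⌈(1 - δ) * (lam * d ^ i) * Real.log x⌉₊ ⌊(1 + δ) * (lam * d ^ i) * Real.log x⌋₊ r B hB
    refine h1.trans (mul_le_mul_of_nonneg_right ?_ measureReal_nonneg)
    have hf : (⌊(1 + δ) * (lam * d ^ i) * Real.log x⌋₊ : ℝ) ≤ (1 + δ) * (lam * d ^ i) * Real.log x := Nat.floor_le (by positivity)
    have hc : (1 - δ) * (lam * d ^ i) * Real.log x ≤ (⌈(1 - δ) * (lam * d ^ i) * Real.log x⌉₊ : ℝ) := Nat.le_ceil _
    refine (be_le hl0 hl1 hu0 (mul_le_mul_of_nonneg_right hf hu0) (mul_le_mul_of_nonneg_right hc hl0)).trans ?_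
    exact hx.le

theorem UB_DT (hA : ∀ n, MeasurableSet[ℱ n] (A n))
    (hφ : StrictMono φ) (hφ1 : ∀ z, z < φ z) (hd0 : 0 < d)
    (hlog : Tendsto (fun z : ℕ => Real.log (φ z : ℕ) / Real.log z) atTop (𝓝 d)) (i : ℕ) (hlam : 0 < lam)
    {δ : ℝ} (hδ0 : 0 < δ) (hδ1 : δ ≤ 1 / 2) (r : ℕ) :
    ∀ᵐ ω ∂μ, UB {x | ω ∈ DT μ ℱ A φ d lam δ i r x} (((1 + δ) ^ 2 * lam) ^ r / (r.factorial : ℝ) + δ) := by
  obtain ⟨l1, l2, l3⟩ := P_lim hφ1 hd0 hlog i hlam δ
  have hlim := (l1.pow r).div_const (r.factorial : ℝ)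
  refine lln (μ := μ) (ℱ := ℱ) (t := fun x => φ^[i] x) (R := fun X => WL d lam i X + 1) (hφ.iterate i).monotone
    (fun X => Nat.succ_pos _) (LL_sqrt _ (by positivity)) ?_ (by positivity) ?_
  · intro X x hx
    exact ℱ.mono (meas_aux hφ hd0 hlam i X x hx) _ (TL_meas hA (fun t => GW_meas hA hφ1 i x t) (fun n => VF_meas δ n) _ _ _ _)
  · filter_upwards [hlim.eventually_lt_const (lt_add_of_pos_right _ hδ0), eventually_ge_atTop 3] with x hx hx3 B hB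
    have hx0 : x ≤ φ^[i] x := it_ge hφ1 i x
    have hx3' : (3 : ℝ) ≤ x := by exact_mod_cast hx3
    have hlx : 1 ≤ Real.log x := by
      rw [Real.le_log_iff_exp_le (by linarith)]
      have := Real.exp_one_lt_d9
      linarith
    have hM1 : 1 ≤ Real.log (φ^[i] x : ℕ) := hlx.trans (Real.log_le_log (by linarith) (by exact_mod_cast hx0))
    have hu0 : 0 ≤ (1 + δ) / Real.log (φ^[i] x : ℕ) := div_nonneg (by linarith) (by linarith)
    have h1 := trial_tl (μ := μ) (ℱ := ℱ) hA (fun t => GW_meas (L := WL d lam i) hA hφ1 i x t) (fun n => VF_meas (A := A) δ n) hu0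
      (φ^[i] (x + WL d lam i x) - φ^[i] x) (φ^[i] x)
      (fun n h1 h2 ω h3 => (win_facts (μ := μ) (ℱ := ℱ) (A := A) (L := WL d lam i) hφ hφ1 hδ0.le (by linarith) i x hx3 n h1 h2 ω h3).2)
      ⌊(1 + δ) * (lam * d ^ i) * Real.log x⌋₊ r B hB
    refine h1.trans (mul_le_mul_of_nonneg_right ?_ measureReal_nonneg)
    have hf : (⌊(1 + δ) * (lam * d ^ i) * Real.log x⌋₊ : ℝ) ≤ (1 + δ) * (lam * d ^ i) * Real.log x := Nat.floor_le (by positivity)
    exact (ch_le hu0 (mul_le_mul_of_nonneg_right hf hu0)).trans hx.le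

/-- `δ = 1 / (j + 2)` -/
noncomputable def dj (j : ℕ) : ℝ := 1 / ((j : ℝ) + 2)

lemma dj_pos (j : ℕ) : 0 < dj j := by unfold dj; positivity

lemma dj_le (j : ℕ) : dj j ≤ 1 / 2 := by
  unfold dj
  rw [div_le_div_iff₀ (by positivity) (by norm_num)]
  have : (0 : ℝ) ≤ j := Nat.cast_nonneg j
  linarith

lemma dj_lim : Tendsto dj atTop (𝓝 0) :=
  tendsto_const_nhds.div_atTop (tendsto_atTop_add_const_right _ _ tendsto_natCast_atTop_atTop)

/-- **the numbers of chains in short windows follow the Poisson law** -/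
theorem poisson (hA : ∀ n, MeasurableSet[ℱ n] (A n))
    (hd : ∀ᵐ ω ∂μ, Tendsto (fun n : ℕ => dens μ ℱ A n ω * Real.log n) atTop (𝓝 1))
    (hφ : StrictMono φ) (hφ1 : ∀ z, z < φ z) (hd0 : 0 < d)
    (hlog : Tendsto (fun z : ℕ => Real.log (φ z : ℕ) / Real.log z) atTop (𝓝 d)) (i : ℕ) (hlam : 0 < lam) :
    ∀ᵐ ω ∂μ, ∀ r : ℕ, Tendsto (fun X : ℕ => (cn {x | NN A φ (WL d lam i) (i + 1) x ω = r} X : ℝ) / X) atTop
      (𝓝 (lam ^ r / (r.factorial : ℝ) * Real.exp (-lam))) := by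
  have h1 : ∀ᵐ ω ∂μ, ∀ j r, UB {x | ω ∈ DE μ ℱ A φ d lam (dj j) i r x}
      (((1 + dj j) ^ 2 * lam) ^ r / (r.factorial : ℝ) * Real.exp (-((1 - dj j) ^ 2 * lam)) + dj j) :=
    ae_all_iff.2 fun j => ae_all_iff.2 fun r => UB_DE hA hφ hφ1 hd0 hlog i hlam (dj_pos j) (dj_le j) r
  have h2 : ∀ᵐ ω ∂μ, ∀ j r, UB {x | ω ∈ DT μ ℱ A φ d lam (dj j) i r x}
      (((1 + dj j) ^ 2 * lam) ^ r / (r.factorial : ℝ) + dj j) :=
    ae_all_iff.2 fun j => ae_all_iff.2 fun r => UB_DT hA hφ hφ1 hd0 hlog i hlam (dj_pos j) (dj_le j) r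
  filter_upwards [h1, h2, hd, most_NN (μ := μ) hA hd hφ hφ1 hd0 hlog i (by positivity) (WL_lim hd0 hlam i)] with ω g1 g2 g3 g4
  have ec : lam * d ^ tri (i + 1) / d ^ tri i = lam * d ^ i := by
    rw [tri_succ, pow_add]
    have : d ^ tri i ≠ 0 := by positivity
    field_simp
  rw [ec] at g4
  have hZ : ∀ j, UB ({x | ¬ |(NN A φ (WL d lam i) i x ω : ℝ) - lam * d ^ i * Real.log x| ≤ dj j * (lam * d ^ i) * Real.log x} ∪
      {x | ∃ t, x ≤ t ∧ ω ∈ VF μ ℱ A (dj j) t}) 0 := by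
    intro j
    refine (g4 _ (mul_pos (dj_pos j) (by positivity))).of_dz (UB_of_eventually (E := {x | ∃ t, x ≤ t ∧ ω ∈ VF μ ℱ A (dj j) t}) ?_) (subset_refl _)
    obtain ⟨m₀, hm₀⟩ := no_VF g3 (dj_pos j)
    filter_upwards [eventually_ge_atTop m₀] with x hx hcon
    obtain ⟨t, ht1, ht2⟩ := hcon
    exact hm₀ t (by omega) ht2
  have hmem : ∀ j x, x ∉ ({x | ¬ |(NN A φ (WL d lam i) i x ω : ℝ) - lam * d ^ i * Real.log x| ≤ dj j * (lam * d ^ i) * Real.log x} ∪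
      {x | ∃ t, x ≤ t ∧ ω ∈ VF μ ℱ A (dj j) t}) →
      ⌈(1 - dj j) * (lam * d ^ i) * Real.log x⌉₊ ≤ cG (GW A φ (WL d lam i) i x) (φ^[i] x) (φ^[i] (x + WL d lam i x) - φ^[i] x) ω ∧
      cG (GW A φ (WL d lam i) i x) (φ^[i] x) (φ^[i] (x + WL d lam i x) - φ^[i] x) ω ≤ ⌊(1 + dj j) * (lam * d ^ i) * Real.log x⌋₊ ∧
      ω ∉ vG (GW A φ (WL d lam i) i x) (VF μ ℱ A (dj j)) (φ^[i] x) (φ^[i] (x + WL d lam i x) - φ^[i] x) := by
    intro j x hx
    rw [mem_union, not_or] at hx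
    have h3 := not_not.1 hx.1
    have h4 := abs_le.1 h3
    rw [cG_GW hφ hφ1]
    refine ⟨Nat.ceil_le.2 (by linarith), Nat.le_floor (by linarith), ?_⟩
    rintro ⟨t, ht1, _, _, ht4⟩
    exact hx.2 ⟨t, (it_ge hφ1 i x).trans ht1, ht4⟩
  refine freq_lim (fun x => NN A φ (WL d lam i) (i + 1) x ω) (p := fun r => lam ^ r / (r.factorial : ℝ) * Real.exp (-lam))
    (τ := fun r => lam ^ r / (r.factorial : ℝ)) (fun r => by positivity) ?_ ?_ ?_ ?_
  · have h5 := (NormedSpace.expSeries_div_hasSum_exp (𝔸 := ℝ) lam).mul_right (Real.exp (-lam))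
    rw [← Real.exp_eq_exp_ℝ, ← Real.exp_add, add_neg_cancel, Real.exp_zero] at h5
    exact h5
  · exact FloorSemiring.tendsto_pow_div_factorial_atTop lam
  · intro r
    refine UB_lim (p := fun j => ((1 + dj j) ^ 2 * lam) ^ r / (r.factorial : ℝ) * Real.exp (-((1 - dj j) ^ 2 * lam)) + dj j) (fun j => ?_) ?_
    · refine (g1 j r).of_dz (hZ j) ?_
      intro x hx
      by_contra hcon
      rw [mem_union, not_or] at hcon
      obtain ⟨k1, k2, k3⟩ := hmem j x hcon.2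
      exact hcon.1 ⟨⟨(SG_GW hφ hφ1 i x ω).trans hx, k1, k2⟩, k3⟩
    · have h6 : Tendsto (fun j => ((1 + dj j) ^ 2 * lam) ^ r / (r.factorial : ℝ) * Real.exp (-((1 - dj j) ^ 2 * lam)) + dj j) atTop
          (𝓝 (((1 + 0) ^ 2 * lam) ^ r / (r.factorial : ℝ) * Real.exp (-((1 - 0) ^ 2 * lam)) + 0)) :=
        (((((dj_lim.const_add 1).pow 2).mul_const lam).pow r).div_const _ |>.mul
          ((Real.continuous_exp.tendsto _).comp (((dj_lim.const_sub 1).pow 2).mul_const lam).neg)).add dj_lim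
      simpa using h6
  · intro r
    refine UB_lim (p := fun j => ((1 + dj j) ^ 2 * lam) ^ r / (r.factorial : ℝ) + dj j) (fun j => ?_) ?_
    · refine (g2 j r).of_dz (hZ j) ?_
      intro x hx
      by_contra hcon
      rw [mem_union, not_or] at hcon
      obtain ⟨k1, k2, k3⟩ := hmem j x hcon.2
      have hx : r ≤ NN A φ (WL d lam i) (i + 1) x ω := hx
      rw [← SG_GW hφ hφ1 i x ω] at hx
      exact hcon.1 ⟨⟨hx, k2⟩, k3⟩
    · have h6 : Tendsto (fun j => ((1 + dj j) ^ 2 * lam) ^ r / (r.factorial : ℝ) + dj j) atTop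
          (𝓝 (((1 + 0) ^ 2 * lam) ^ r / (r.factorial : ℝ) + 0)) :=
        ((((dj_lim.const_add 1).pow 2).mul_const lam).pow r).div_const _ |>.add dj_lim
      simpa using h6

end Pool.Agent.N315.PL
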